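import Pool.Agent.H504E.Forms

set_option autoImplicit false
set_option linter.unusedSectionVars false
set_option linter.unusedVariables false

open Finset Pool.Agent.H504R2 Pool.Agent.H504D
open scoped WithZero

namespace Pool.Agent.H504E

variable {K : Type} [Field K]

/-- `F` is a composition of `D`-good stages whose exponents have product `d` -/
def BChain (D d : ℕ) (F : (Fin 2 → K) → Fin 2 → K) : Prop :=
  ∃ (k : ℕ) (m : ℕ → ℕ) (a : ℕ → K) (A : ℕ → Matrix (Fin 2) (Fin 2) K), 0 < k ∧ (∀ t, 1 ≤ m t) ∧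
    (∀ t, (A t).det ≠ 0) ∧ (∏ t ∈ range k, m t = d) ∧
    (∀ t, (a t = 0 ∧ ∀ r : ℕ, r.Prime → r ∣ m t → D + 1 < r) ∨
      (∀ r : ℕ, r.Prime → r ∣ m t → 2 * D + 1 < r)) ∧ ∀ x, F x = run m a A x k

theorem BChain.comp {D d e : ℕ} {F G : (Fin 2 → K) → Fin 2 → K} (hF : BChain D d F) (hG : BChain D e G) :
    BChain D (e * d) (fun x => F (G x)) := by
  obtain ⟨k1, m1, a1, A1, hk1, hm1, hA1, hd1, hg1, hF⟩ := hF
  obtain ⟨k2, m2, a2, A2, hk2, hm2, hA2, hd2, hg2, hG⟩ := hG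
  refine ⟨k2 + k1, fun t => if t < k2 then m2 t else m1 (t - k2),
    fun t => if t < k2 then a2 t else a1 (t - k2),
    fun t => if t < k2 then A2 t else A1 (t - k2), by omega, ?_, ?_, ?_, ?_, ?_⟩
  · intro t
    by_cases h : t < k2
    · simp only [h, if_true]; exact hm2 t
    · simp only [h, if_false]; exact hm1 _
  · intro t
    by_cases h : t < k2
    · simp only [h, if_true]; exact hA2 t
    · simp only [h, if_false]; exact hA1 _
  · rw [Finset.prod_range_add]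
    congr 1
    · rw [← hd2]
      apply Finset.prod_congr rfl
      intro t ht
      rw [mem_range] at ht
      simp only [ht, if_true]
    · rw [← hd1]
      apply Finset.prod_congr rfl
      intro t ht
      have : ¬ k2 + t < k2 := by omega
      simp only [this, if_false]
      congr 1
      omega
  · intro t
    by_cases h : t < k2
    · simp only [h, if_true]; exact hg2 t
    · simp only [h, if_false]; exact hg1 _
  · intro x
    show F (G x) = _
    rw [run_add, hF, hG]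
    have e1 : run (fun t => if t < k2 then m2 t else m1 (t - k2))
        (fun t => if t < k2 then a2 t else a1 (t - k2))
        (fun t => if t < k2 then A2 t else A1 (t - k2)) x k2 = run m2 a2 A2 x k2 := by
      apply run_congr
      · intro t ht; simp only [ht, if_true]
      · intro t ht; simp only [ht, if_true]
      · intro t ht; simp only [ht, if_true]
    rw [e1]
    apply run_congr
    all_goals
      intro t ht
      have h1 : ¬ k2 + t < k2 := by omega
      have h2 : k2 + t - k2 = t := by omega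
      simp only [h1, if_false, h2]

theorem BChain.iter {D d : ℕ} {F : (Fin 2 → K) → Fin 2 → K} (hF : BChain D d F) (n : ℕ) (hn : 0 < n) :
    BChain D (d ^ n) F^[n] := by
  induction n with
  | zero => omega
  | succ n ih =>
    rcases Nat.eq_zero_or_pos n with h0 | h0
    · subst h0
      rw [zero_add, pow_one]
      exact hF
    · have h1 := hF.comp (ih h0)
      rw [← pow_succ] at h1
      have h2 : F^[n + 1] = fun x => F (F^[n] x) := by
        funext x
        exact Function.iterate_succ_apply' _ _ _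
      rw [h2]
      exact h1

lemma BChain.smul {D d : ℕ} {F : (Fin 2 → K) → Fin 2 → K} (hF : BChain D d F) (s : K) (x : Fin 2 → K) :
    F (s • x) = s ^ d • F x := by
  obtain ⟨k, m, a, A, hk, hm, hA, hd, hg, hF⟩ := hF
  rw [hF, hF, ← hd]
  clear hF hd hk
  induction k with
  | zero => simp [run]
  | succ k ih =>
    show stage (m k) (a k) (A k) (run m a A (s • x) k) = _ • stage (m k) (a k) (A k) (run m a A x k)
    rw [ih, stage_smul, Finset.prod_range_succ, pow_mul]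

lemma BChain.ne {D d : ℕ} {F : (Fin 2 → K) → Fin 2 → K} (hF : BChain D d F) {x : Fin 2 → K} (hx : x ≠ 0) :
    F x ≠ 0 := by
  obtain ⟨k, m, a, A, hk, hm, hA, hd, hg, hF⟩ := hF
  rw [hF]
  exact run_ne hm hA hx k

theorem BChain.count {D d : ℕ} {F : (Fin 2 → K) → Fin 2 → K} (hF : BChain D d F) (hd2 : 2 ≤ d)
    (S : Finset (Fin 2 → K)) (hS0 : ∀ x ∈ S, x ≠ 0)
    (hSp : ∀ x ∈ S, ∀ y ∈ S, ∀ c : K, x = c • y → x = y)
    (hfix : ∀ x ∈ S, ∃ c : K, F x = c • x) : S.card ≤ d + 2 := by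
  obtain ⟨k, m, a, A, hk, hm, hA, hd, hg, hF⟩ := hF
  subst hd
  exact count_chain hm hA hd2 S hS0 hSp (fun x hx => by
    obtain ⟨c, hc⟩ := hfix x hx
    exact ⟨c, by rw [← hF, hc]⟩)

/-- a good place for `D` and `d` -/
structure GoodPlace (D d : ℕ) (v : Valuation K ℤᵐ⁰) (p f : ℕ) : Prop where
  hv : IsPlace v p (p ^ f)
  hp : p.Prime
  hf1 : 1 ≤ f
  hf : f ≤ D
  cop : Nat.Coprime p d
  prim : ∀ r : ℕ, r.Prime → r ∣ d → ∀ f, 0 < f → f < r - 1 → ¬ r ∣ p ^ f - 1

lemma GoodPlace.cop' {D d : ℕ} {v : Valuation K ℤᵐ⁰} {p f : ℕ} (g : GoodPlace D d v p f)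
    (m c : ℕ) (hm : m ∣ d) (hmr : ∀ r : ℕ, r.Prime → r ∣ m → c * D + 1 < r) (hc : 1 ≤ c) :
    Nat.Coprime m (p ^ (c * f) - 1) := by
  rw [Nat.coprime_iff_gcd_eq_one]
  by_contra hne
  obtain ⟨r, hrp, hrd⟩ := Nat.exists_prime_and_dvd hne
  have h1 : r ∣ m := hrd.trans (Nat.gcd_dvd_left _ _)
  have h2 : r ∣ p ^ (c * f) - 1 := hrd.trans (Nat.gcd_dvd_right _ _)
  have h3 := hmr r hrp h1
  have h4 : c * f ≤ c * D := Nat.mul_le_mul_left _ g.hf
  exact g.prim r hrp (h1.trans hm) (c * f) (Nat.mul_pos hc g.hf1) (by omega) h2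

lemma GoodPlace.adm {D d : ℕ} {v : Valuation K ℤᵐ⁰} {p f : ℕ} (g : GoodPlace D d v p f)
    {m : ℕ} {a : K} (hm1 : 1 ≤ m) (hm : m ∣ d)
    (h : (a = 0 ∧ ∀ r : ℕ, r.Prime → r ∣ m → D + 1 < r) ∨
      (∀ r : ℕ, r.Prime → r ∣ m → 2 * D + 1 < r)) : Adm p (p ^ f) m a := by
  refine ⟨hm1, Nat.Coprime.coprime_dvd_left hm g.cop.symm, ?_, ?_⟩
  · rcases h with ⟨-, h⟩ | h
    · have := g.cop' m 1 hm (by simpa using h) le_rfl
      rwa [one_mul] at this
    · have := g.cop' m 1 hm (fun r hr1 hr2 => by have := h r hr1 hr2; omega) le_rfl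
      rwa [one_mul] at this
  · rcases h with ⟨h, -⟩ | h
    · exact Or.inl h
    · right
      have := g.cop' m 2 hm h (by norm_num)
      rwa [mul_comm 2 f, pow_mul] at this

theorem BChain.inj {D d : ℕ} {F : (Fin 2 → K) → Fin 2 → K} (hF : BChain D d F)
    {v : Valuation K ℤᵐ⁰} {p f : ℕ} (g : GoodPlace D d v p f) (x y : Fin 2 → K) :
    br (F x) (F y) = 0 ↔ br x y = 0 := by
  obtain ⟨k, m, a, A, hk, hm, hA, hd, hg, hF⟩ := hF
  have hma : ∀ t < k, Adm p (p ^ f) (m t) (a t) := fun t ht => by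
    apply g.adm (hm t) _ (hg t)
    rw [← hd]; exact Finset.dvd_prod_of_mem _ (mem_range.2 ht)
  rw [hF, hF]
  exact run_inj g.hv g.hp ⟨f, rfl⟩ hma hA k le_rfl

theorem BChain.period {D d : ℕ} {F : (Fin 2 → K) → Fin 2 → K} (hF : BChain D d F)
    {v1 v2 : Valuation K ℤᵐ⁰} {p1 f1 p2 f2 : ℕ} (g1 : GoodPlace D d v1 p1 f1)
    (g2 : GoodPlace D d v2 p2 f2) (hne : p1 ≠ p2) {x : Fin 2 → K} (hx : x ≠ 0)
    (hpre : ∃ a n, 0 < n ∧ br (F^[a + n] x) (F^[a] x) = 0) :
    ∃ n, 0 < n ∧ n ≤ ((p1 ^ f1 + 1) * (p1 ^ f1) ^ (2 * d + 1)) * ((p2 ^ f2 + 1) * (p2 ^ f2) ^ (2 * d + 1)) ∧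
      br (F^[n] x) x = 0 := by
  classical
  have hper : ∃ n, 0 < n ∧ br (F^[n] x) x = 0 := by
    obtain ⟨a, n, hn, h⟩ := hpre
    refine ⟨n, hn, ?_⟩
    induction a with
    | zero => rwa [zero_add] at h
    | succ a ih =>
      apply ih
      rw [show a + 1 + n = (a + n) + 1 by ring, Function.iterate_succ_apply',
        Function.iterate_succ_apply', hF.inj g1] at h
      exact h
  obtain ⟨hn0, hn⟩ := Nat.find_spec hper
  have hmin := fun n' (h : n' < Nat.find hper) => Nat.find_min hper h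
  set n := Nat.find hper with hn_def
  have hmin' : ∀ n', 0 < n' → n' < n → br (F^[n'] x) x ≠ 0 := fun n' h1 h2 h3 => hmin n' h2 ⟨h1, h3⟩
  obtain ⟨k, m, a, A, hk, hm, hA, hd, hg, hF⟩ := hF
  have hma1 : ∀ t < k, Adm p1 (p1 ^ f1) (m t) (a t) := fun t ht => by
    apply g1.adm (hm t) _ (hg t)
    rw [← hd]; exact Finset.dvd_prod_of_mem _ (mem_range.2 ht)
  have hma2 : ∀ t < k, Adm p2 (p2 ^ f2) (m t) (a t) := fun t ht => by
    apply g2.adm (hm t) _ (hg t)
    rw [← hd]; exact Finset.dvd_prod_of_mem _ (mem_range.2 ht)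
  have hκ := card_stages_le hm hd
  obtain ⟨M1, E1, h11, h12, h13⟩ := period_dvd g1.hv g1.hp ⟨f1, rfl⟩ hk hm hma1 hA hκ hF hx hn0 hn hmin'
  obtain ⟨M2, E2, h21, h22, h23⟩ := period_dvd g2.hv g2.hp ⟨f2, rfl⟩ hk hm hma2 hA hκ hF hx hn0 hn hmin'
  have h1 := dvd_of_two_primes g1.hp g2.hp hne h13 h23
  exact ⟨n, hn0, (Nat.le_of_dvd (Nat.mul_pos h11 h21) h1).trans (Nat.mul_le_mul h12 h22), hn⟩

end Pool.Agent.H504E
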