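import Pool.Agent.H504E.Main
import Pool.Agent.H504D.HenonGlobal
import Pool.Agent.H504R2.Count

set_option autoImplicit false
set_option linter.unusedSectionVars false
set_option linter.unusedVariables false

open Finset Pool.Agent.H504R2 Pool.Agent.H504D
open scoped WithZero

namespace Pool.Agent.H504E

variable {K : Type} [Field K]

/-- one stage: a Dickson (or power) map followed by a linear map -/
def stage {R : Type} [CommRing R] (m : ℕ) (a : R) (A : Matrix (Fin 2) (Fin 2) R) (x : Fin 2 → R) : Fin 2 → R :=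
  A.mulVec ![dk (a * x 1 ^ 2) (x 0) m, x 1 ^ m]

/-- run the stages one after the other -/
def run {R : Type} [CommRing R] (m : ℕ → ℕ) (a : ℕ → R) (A : ℕ → Matrix (Fin 2) (Fin 2) R)
    (x : Fin 2 → R) : ℕ → Fin 2 → R
  | 0 => x
  | t + 1 => stage (m t) (a t) (A t) (run m a A x t)

lemma run_congr {m m' : ℕ → ℕ} {a a' : ℕ → K} {A A' : ℕ → Matrix (Fin 2) (Fin 2) K} (x : Fin 2 → K)
    (k : ℕ) (hm : ∀ t < k, m t = m' t) (ha : ∀ t < k, a t = a' t) (hA : ∀ t < k, A t = A' t) :
    run m a A x k = run m' a' A' x k := by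
  induction k with
  | zero => rfl
  | succ k ih =>
    unfold run
    rw [ih (fun t ht => hm t (by omega)) (fun t ht => ha t (by omega)) (fun t ht => hA t (by omega)),
      hm k (by omega), ha k (by omega), hA k (by omega)]

lemma run_add (m : ℕ → ℕ) (a : ℕ → K) (A : ℕ → Matrix (Fin 2) (Fin 2) K) (x : Fin 2 → K) (s b : ℕ) :
    run m a A x (s + b) =
      run (fun t => m (s + t)) (fun t => a (s + t)) (fun t => A (s + t)) (run m a A x s) b := by
  induction b with
  | zero => rfl
  | succ b ih =>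
    rw [← add_assoc]
    unfold run
    rw [ih]

lemma br_stage (m : ℕ) (a : K) (A : Matrix (Fin 2) (Fin 2) K) (x y : Fin 2 → K) :
    br (stage m a A x) (stage m a A y) = A.det * hh m a x y * br x y := by
  have e1 : dk (a * x 1 ^ 2) (x 0) m * y 1 ^ m = dk (a * (x 1 * y 1) ^ 2) (x 0 * y 1) m := by
    rw [show a * (x 1 * y 1) ^ 2 = y 1 ^ 2 * (a * x 1 ^ 2) by ring, mul_comm (x 0) (y 1), dk_smul]
    ring
  have e2 : x 1 ^ m * dk (a * y 1 ^ 2) (y 0) m = dk (a * (x 1 * y 1) ^ 2) (x 1 * y 0) m := by
    rw [show a * (x 1 * y 1) ^ 2 = x 1 ^ 2 * (a * y 1 ^ 2) by ring, dk_smul]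
  have h1 : hh m a x y * br x y =
      dk (a * x 1 ^ 2) (x 0) m * y 1 ^ m - x 1 ^ m * dk (a * y 1 ^ 2) (y 0) m := by
    rw [e1, e2, dk_sub]
    unfold hh br
    ring
  rw [mul_assoc, h1, Matrix.det_fin_two]
  unfold br stage
  simp only [Matrix.mulVec, dotProduct, Fin.sum_univ_two, Matrix.cons_val_zero, Matrix.cons_val_one]
  ring

lemma stage_smul (m : ℕ) (a : K) (A : Matrix (Fin 2) (Fin 2) K) (c : K) (x : Fin 2 → K) :
    stage m a A (c • x) = c ^ m • stage m a A x := by
  unfold stage
  rw [← Matrix.mulVec_smul]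
  congr 1
  ext i
  fin_cases i
  · show dk (a * (c * x 1) ^ 2) (c * x 0) m = c ^ m * dk (a * x 1 ^ 2) (x 0) m
    rw [show a * (c * x 1) ^ 2 = c ^ 2 * (a * x 1 ^ 2) by ring, dk_smul]
  · show (c * x 1) ^ m = c ^ m * x 1 ^ m
    rw [mul_pow]

lemma stage_ne {m : ℕ} (hm : 1 ≤ m) {a : K} {A : Matrix (Fin 2) (Fin 2) K} (hA : A.det ≠ 0)
    {x : Fin 2 → K} (hx : x ≠ 0) : stage m a A x ≠ 0 := by
  intro h
  have h1 := Matrix.eq_zero_of_mulVec_eq_zero hA h
  have h2 : x 1 = 0 := eq_zero_of_pow_eq_zero (congrFun h1 1)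
  have h3 : dk (a * x 1 ^ 2) (x 0) m = 0 := congrFun h1 0
  obtain ⟨m', rfl⟩ : ∃ m', m = m' + 1 := ⟨m - 1, by omega⟩
  rw [h2, zero_pow two_ne_zero, mul_zero, dk_zero] at h3
  apply hx
  ext i
  fin_cases i
  · exact eq_zero_of_pow_eq_zero h3
  · exact h2

lemma br_eq_zero_iff {x y : Fin 2 → K} (hx : x ≠ 0) (hy : y ≠ 0) :
    br x y = 0 ↔ ∃ c : K, c ≠ 0 ∧ x = c • y := by
  constructor
  · intro h
    unfold br at h
    have h' : x 0 * y 1 = x 1 * y 0 := sub_eq_zero.1 h
    by_cases hy0 : y 0 = 0
    · have hy1 : y 1 ≠ 0 := by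
        intro hy1; apply hy; ext i; fin_cases i
        · exact hy0
        · exact hy1
      have hx0 : x 0 = 0 := by
        rw [hy0, mul_zero] at h'
        exact (mul_eq_zero.1 h').resolve_right hy1
      have hx1 : x 1 ≠ 0 := by
        intro hx1; apply hx; ext i; fin_cases i
        · exact hx0
        · exact hx1
      refine ⟨x 1 / y 1, div_ne_zero hx1 hy1, ?_⟩
      ext i; fin_cases i
      · simp [hx0, hy0]
      · simp [hy1]
    · have hx0 : x 0 ≠ 0 := by
        intro hx0
        rw [hx0, zero_mul] at h'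
        have hx1 : x 1 = 0 := (mul_eq_zero.1 h'.symm).resolve_right hy0
        apply hx; ext i; fin_cases i
        · exact hx0
        · exact hx1
      refine ⟨x 0 / y 0, div_ne_zero hx0 hy0, ?_⟩
      ext i; fin_cases i
      · simp [hy0]
      · simp only [Fin.mk_one, Pi.smul_apply, smul_eq_mul]
        field_simp
        exact h'.symm
  · rintro ⟨c, -, rfl⟩
    unfold br
    simp only [Pi.smul_apply, smul_eq_mul]; ring

section orbit

variable {v : Valuation K ℤᵐ⁰} {p q : ℕ}

lemma stage_inj (hv : IsPlace v p q) (hp : p.Prime) (hq : ∃ f, q = p ^ f) {m : ℕ} {a : K}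
    (hm : Adm p q m a) {A : Matrix (Fin 2) (Fin 2) K} (hA : A.det ≠ 0) {x y : Fin 2 → K}
    (h : br x y ≠ 0) : br (stage m a A x) (stage m a A y) ≠ 0 := by
  rw [br_stage]
  refine mul_ne_zero (mul_ne_zero hA ?_) h
  intro h0
  have h1 := v_hh hv hp hq hm x y
  rw [h0, map_zero, zero_pow two_ne_zero] at h1
  have h2 : 0 < wt v a x y :=
    lt_of_lt_of_le (pow_pos (zero_lt_iff.2 ((Valuation.ne_zero_iff v).2 h)) 2) (br_sq_le_wt a x y)
  exact (pow_pos h2 _).ne h1

variable {k : ℕ} {m : ℕ → ℕ} {a : ℕ → K} {A : ℕ → Matrix (Fin 2) (Fin 2) K}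

lemma run_ne (hm : ∀ t, 1 ≤ m t) (hA : ∀ t, (A t).det ≠ 0) {x : Fin 2 → K} (hx : x ≠ 0) (t : ℕ) :
    run m a A x t ≠ 0 := by
  induction t with
  | zero => exact hx
  | succ t ih => exact stage_ne (hm t) (hA t) ih

lemma run_inj (hv : IsPlace v p q) (hp : p.Prime) (hq : ∃ f, q = p ^ f)
    (hma : ∀ t < k, Adm p q (m t) (a t)) (hA : ∀ t, (A t).det ≠ 0) {x y : Fin 2 → K} :
    ∀ t ≤ k, (br (run m a A x t) (run m a A y t) = 0 ↔ br x y = 0) := by
  intro t ht
  induction t with
  | zero => exact Iff.rfl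
  | succ t ih =>
    rw [← ih (by omega)]
    constructor
    · intro h
      by_contra hne
      exact stage_inj hv hp hq (hma t (by omega)) (hA t) hne h
    · intro h
      show br (stage (m t) (a t) (A t) (run m a A x t)) (stage (m t) (a t) (A t) (run m a A y t)) = 0
      rw [br_stage, h, mul_zero]

/-- the whole theory for one periodic point -/
theorem period_dvd (hv : IsPlace v p q) (hp : p.Prime) (hq : ∃ f, q = p ^ f) (hk : 0 < k)
    (hm1 : ∀ t, 1 ≤ m t) (hma : ∀ t < k, Adm p q (m t) (a t))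
    (hA : ∀ t, (A t).det ≠ 0) {κ : ℕ} (hκ : ((range k).filter fun t => 2 ≤ m t).card ≤ κ)
    {F : (Fin 2 → K) → Fin 2 → K} (hF : ∀ x, F x = run m a A x k) {x : Fin 2 → K} (hx : x ≠ 0) {n : ℕ}
    (hn : 0 < n) (hper : br (F^[n] x) x = 0) (hmin : ∀ n', 0 < n' → n' < n → br (F^[n'] x) x ≠ 0) :
    ∃ M E : ℕ, 1 ≤ M ∧ M ≤ (q + 1) * q ^ (2 * κ + 1) ∧ n ∣ M * p ^ E := by
  classical
  have hFne : ∀ y : Fin 2 → K, y ≠ 0 → F y ≠ 0 := fun y hy => by rw [hF]; exact run_ne hm1 hA hy k
  have hFit : ∀ i, F^[i] x ≠ 0 := by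
    intro i
    induction i with
    | zero => exact hx
    | succ i ih => rw [Function.iterate_succ_apply']; exact hFne _ ih
  have hFbr : ∀ y z : Fin 2 → K, br (F y) (F z) = 0 ↔ br y z = 0 := by
    intro y z
    rw [hF, hF]
    exact run_inj hv hp hq hma hA k le_rfl
  have hEs : ∀ s i j, br (F^[i + s] x) (F^[j + s] x) = 0 ↔ br (F^[i] x) (F^[j] x) = 0 := by
    intro s i j
    induction s with
    | zero => rfl
    | succ s ih =>
      rw [← add_assoc, ← add_assoc, Function.iterate_succ_apply', Function.iterate_succ_apply', hFbr]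
      exact ih
  have hEtrans : ∀ i j l, br (F^[i] x) (F^[j] x) = 0 → br (F^[j] x) (F^[l] x) = 0 →
      br (F^[i] x) (F^[l] x) = 0 := by
    intro i j l h1 h2
    rw [br_eq_zero_iff (hFit _) (hFit _)] at h1 h2 ⊢
    obtain ⟨c, hc, h1⟩ := h1
    obtain ⟨d, hd, h2⟩ := h2
    exact ⟨c * d, mul_ne_zero hc hd, by rw [h1, h2, smul_smul]⟩
  have hEsymm : ∀ i j, br (F^[i] x) (F^[j] x) = 0 → br (F^[j] x) (F^[i] x) = 0 := by
    intro i j h
    rw [br_comm, h, neg_zero]
  have hEn : ∀ a, br (F^[a + n] x) (F^[a] x) = 0 := by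
    intro a
    have := (hEs a n 0).2 hper
    rwa [zero_add, add_comm n a] at this
  have hEmul : ∀ s a, br (F^[a + n * s] x) (F^[a] x) = 0 := by
    intro s a
    induction s with
    | zero => rw [mul_zero, add_zero]; exact br_self _
    | succ s ih =>
      rw [show a + n * (s + 1) = a + n * s + n by ring]
      exact hEtrans _ _ _ (hEn _) ih
  have hEmod : ∀ a, br (F^[a] x) (F^[a % n] x) = 0 := by
    intro a
    have := hEmul (a / n) (a % n)
    rwa [Nat.mod_add_div] at this
  have hdist : ∀ i j, br (F^[i] x) (F^[j] x) = 0 ↔ i ≡ j [MOD n] := by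
    have key : ∀ a b, a < n → b < n → a < b → br (F^[a] x) (F^[b] x) ≠ 0 := by
      intro a b ha hb hab h
      have h1 : br (F^[(b - a) + a] x) (F^[0 + a] x) = 0 := by
        rw [Nat.sub_add_cancel hab.le, zero_add]
        exact hEsymm _ _ h
      rw [hEs] at h1
      exact hmin (b - a) (by omega) (by omega) h1
    intro i j
    constructor
    · intro h
      have h1 : br (F^[i % n] x) (F^[j % n] x) = 0 :=
        hEtrans _ _ _ (hEsymm _ _ (hEmod i)) (hEtrans _ _ _ h (hEmod j))
      have hi := Nat.mod_lt i hn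
      have hj := Nat.mod_lt j hn
      rcases lt_trichotomy (i % n) (j % n) with h2 | h2 | h2
      · exact absurd h1 (key _ _ hi hj h2)
      · exact h2
      · exact absurd (hEsymm _ _ h1) (key _ _ hj hi h2)
    · intro h
      have h2 : i % n = j % n := h
      have h1 := hEmod i
      rw [h2] at h1
      exact hEtrans _ _ _ h1 (hEsymm _ _ (hEmod j))
  -- the periodic sequence of stages
  set m' : ℕ → ℕ := fun t => m (t % k) with hm'
  set a' : ℕ → K := fun t => a (t % k) with ha'
  set A' : ℕ → Matrix (Fin 2) (Fin 2) K := fun t => A (t % k) with hA'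
  have hA'd : ∀ t, (A' t).det ≠ 0 := fun t => hA _
  have hrunr : ∀ i r, r ≤ k → run m' a' A' x (i * k + r) = run m a A (run m' a' A' x (i * k)) r := by
    intro i r hr
    rw [run_add]
    apply run_congr
    · intro t ht
      simp only [hm']
      congr 1
      rw [Nat.mul_add_mod_self_right]
      exact Nat.mod_eq_of_lt (by omega)
    · intro t ht
      simp only [ha']
      congr 1
      rw [Nat.mul_add_mod_self_right]
      exact Nat.mod_eq_of_lt (by omega)
    · intro t ht
      simp only [hA']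
      congr 1
      rw [Nat.mul_add_mod_self_right]
      exact Nat.mod_eq_of_lt (by omega)
  have hrun : ∀ i, run m' a' A' x (i * k) = F^[i] x := by
    intro i
    induction i with
    | zero => rw [zero_mul]; rfl
    | succ i ih =>
      rw [show (i + 1) * k = i * k + k by ring, hrunr i k le_rfl, ih, Function.iterate_succ_apply', hF]
  let O : Orb v p q k n :=
    { hv := hv
      hp := hp
      hq := hq
      X := run m' a' A' x
      m := m'
      a := a'
      D := fun t => (A' t).det
      D_ne := hA'd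
      k_pos := hk
      n_pos := hn
      adm := fun t => hma _ (Nat.mod_lt _ hk)
      m_per := fun t => by simp only [hm']; rw [Nat.add_mod_right]
      a_per := fun t => by simp only [ha']; rw [Nat.add_mod_right]
      step := by
        intro i j t
        have h1 : ∀ i, run m' a' A' x (i * k + (t + 1)) =
            stage (m' t) (a' t) (A' t) (run m' a' A' x (i * k + t)) := by
          intro i
          have h2 : m' (i * k + t) = m' t := by
            simp only [hm']; rw [Nat.mul_add_mod_self_right]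
          have h3 : A' (i * k + t) = A' t := by
            simp only [hA']; rw [Nat.mul_add_mod_self_right]
          have h4 : a' (i * k + t) = a' t := by
            simp only [ha']; rw [Nat.mul_add_mod_self_right]
          rw [← h2, ← h3, ← h4]; rfl
        rw [h1, h1, br_stage]
      X_ne := fun t => run_ne (fun t => hm1 _) hA'd hx t
      per := by
        intro t
        induction t with
        | zero =>
          rw [zero_add, hrun]
          exact (br_eq_zero_iff (hFit n) hx).1 hper
        | succ t ih =>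
          obtain ⟨c, hc, h⟩ := ih
          refine ⟨c ^ m' t, pow_ne_zero _ hc, ?_⟩
          have h2 : m' (t + n * k) = m' t := by
            simp only [hm']; rw [Nat.add_mul_mod_self_right]
          have h3 : A' (t + n * k) = A' t := by
            simp only [hA']; rw [Nat.add_mul_mod_self_right]
          have h4 : a' (t + n * k) = a' t := by
            simp only [ha']; rw [Nat.add_mul_mod_self_right]
          rw [show t + 1 + n * k = t + n * k + 1 by ring]
          show stage (m' (t + n * k)) (a' (t + n * k)) (A' (t + n * k)) (run m' a' A' x (t + n * k)) = _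
          rw [h, h2, h3, h4, stage_smul]; rfl
      dist := by
        intro i j
        rw [add_zero, add_zero, hrun, hrun]
        exact hdist i j }
  apply O.main hp (κ := κ)
  refine le_trans (le_of_eq ?_) hκ
  congr 1
  apply Finset.filter_congr
  intro t ht
  rw [mem_range] at ht
  show 2 ≤ m (t % k) ↔ 2 ≤ m t
  rw [Nat.mod_eq_of_lt ht]

end orbit

/-- number of nontrivial stages -/
lemma card_stages_le {k d : ℕ} {m : ℕ → ℕ} (hm1 : ∀ t, 1 ≤ m t) (hd : ∏ t ∈ range k, m t = d) :
    ((range k).filter fun t => 2 ≤ m t).card ≤ d := by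
  have h1 : 2 ^ ((range k).filter fun t => 2 ≤ m t).card ≤ ∏ t ∈ (range k).filter (fun t => 2 ≤ m t), m t := by
    apply Finset.pow_card_le_prod
    intro t ht
    exact (mem_filter.1 ht).2
  have h2 : ∏ t ∈ (range k).filter (fun t => 2 ≤ m t), m t ≤ ∏ t ∈ range k, m t :=
    Finset.prod_le_prod_of_subset_of_one_le' (filter_subset _ _) (fun t _ _ => hm1 t)
  have h3 : ((range k).filter fun t => 2 ≤ m t).card < 2 ^ ((range k).filter fun t => 2 ≤ m t).card :=
    Nat.lt_two_pow_self
  omega

end Pool.Agent.H504E
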