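import Pool.Agent.H504E.Orbit

set_option autoImplicit false
set_option linter.unusedSectionVars false
set_option linter.unusedVariables false

open Finset Pool.Agent.H504R2 Pool.Agent.H504D
open scoped WithZero

namespace Pool.Agent.H504E

variable {K : Type} [Field K] {v : Valuation K ℤᵐ⁰} {p q k n : ℕ}

namespace Orb

variable (O : Orb v p q k n)

/-- the point attached to a residue class -/
def P (a : ZMod n) : Fin 2 → K := O.pt a.val 0

/-- bracket of points attached to residue classes -/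
def B (a b : ZMod n) : K := br (O.P a) (O.P b)

/-- `{a, b}` is separated from `{c, d}` -/
def sep (a b c d : ZMod n) : Prop := v (O.B a b * O.B c d) < v (O.B a c * O.B b d)

lemma B_comm (a b : ZMod n) : O.B b a = - O.B a b := br_comm _ _

lemma v_B_comm (a b : ZMod n) : v (O.B b a) = v (O.B a b) := v_br_comm _ _

lemma B_self (a : ZMod n) : O.B a a = 0 := br_self _

lemma B_plucker (a b c d : ZMod n) : O.B a b * O.B c d - O.B a c * O.B b d + O.B a d * O.B b c = 0 :=
  plucker _ _ _ _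

variable [NeZero n]

lemma B_eq_zero (a b : ZMod n) : O.B a b = 0 ↔ a = b := by
  unfold B P
  have := O.b_eq_zero a.val b.val 0
  unfold Orb.b at this
  rw [this, ← ZMod.natCast_eq_natCast_iff, ZMod.natCast_zmod_val, ZMod.natCast_zmod_val]

lemma B_ne {a b : ZMod n} (h : a ≠ b) : O.B a b ≠ 0 := fun h0 => h ((O.B_eq_zero a b).1 h0)

lemma vB_pos {a b : ZMod n} (h : a ≠ b) : 0 < v (O.B a b) :=
  zero_lt_iff.2 ((Valuation.ne_zero_iff v).2 (O.B_ne h))

lemma proj (i : ℕ) : ∃ c : K, c ≠ 0 ∧ O.pt i 0 = c • O.P (i : ZMod n) := by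
  have h1 : i = (i : ZMod n).val + n * (i / n) := by
    rw [ZMod.val_natCast]; exact (Nat.mod_add_div i n).symm
  have h2 : ∀ s : ℕ, ∃ c : K, c ≠ 0 ∧ O.pt ((i : ZMod n).val + n * s) 0 = c • O.P (i : ZMod n) := by
    intro s
    induction s with
    | zero => exact ⟨1, one_ne_zero, by rw [one_smul, mul_zero, add_zero]; rfl⟩
    | succ s ih =>
      obtain ⟨c, hc, h⟩ := ih
      obtain ⟨d, hd, h'⟩ := O.pt_per ((i : ZMod n).val + n * s) 0
      refine ⟨d * c, mul_ne_zero hd hc, ?_⟩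
      rw [show (i : ZMod n).val + n * (s + 1) = (i : ZMod n).val + n * s + n by ring, h', h, smul_smul]
  obtain ⟨c, hc, h⟩ := h2 (i / n)
  rw [← h1] at h
  exact ⟨c, hc, h⟩

lemma sep_nat (i j l r : ℕ) : O.R i j l r 0 < O.R i l j r 0 ↔ O.sep i j l r := by
  obtain ⟨ci, hci, hi⟩ := O.proj i
  obtain ⟨cj, hcj, hj⟩ := O.proj j
  obtain ⟨cl, hcl, hl⟩ := O.proj l
  obtain ⟨cr, hcr, hr⟩ := O.proj r
  unfold R sep Orb.b B
  rw [hi, hj, hl, hr]
  simp only [br_smul]
  have e1 : ci * cj * br (O.P i) (O.P j) * (cl * cr * br (O.P l) (O.P r)) =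
      (ci * cj * cl * cr) * (br (O.P i) (O.P j) * br (O.P l) (O.P r)) := by ring
  have e2 : ci * cl * br (O.P i) (O.P l) * (cj * cr * br (O.P j) (O.P r)) =
      (ci * cj * cl * cr) * (br (O.P i) (O.P l) * br (O.P j) (O.P r)) := by ring
  rw [e1, e2, map_mul v (ci * cj * cl * cr), map_mul v (ci * cj * cl * cr)]
  have hpos : 0 < v (ci * cj * cl * cr) := zero_lt_iff.2 ((Valuation.ne_zero_iff v).2
    (mul_ne_zero (mul_ne_zero (mul_ne_zero hci hcj) hcl) hcr))
  exact mul_lt_mul_iff_right₀ hpos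

lemma R_shift (i j l r : ℕ) : O.R i j l r k = O.R (i + 1) (j + 1) (l + 1) (r + 1) 0 := by
  have h : ∀ i, O.pt i k = O.pt (i + 1) 0 := fun i => by
    have := O.pt_shift i 0; rwa [zero_add] at this
  unfold R Orb.b
  rw [h, h, h, h]

lemma natCast_ne {a c : ZMod n} (h : a ≠ c) : ¬ a.val ≡ c.val [MOD n] := by
  rw [← ZMod.natCast_eq_natCast_iff, ZMod.natCast_zmod_val, ZMod.natCast_zmod_val]; exact h

lemma sep_add_one {a b c d : ZMod n} (hac : a ≠ c) (hbd : b ≠ d) :
    O.sep (a + 1) (b + 1) (c + 1) (d + 1) ↔ O.sep a b c d := by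
  have h1 := O.lt_iff (j := b.val) (l := c.val) (natCast_ne hac) (natCast_ne hbd) k
  rw [R_shift, R_shift, sep_nat, sep_nat] at h1
  simpa [ZMod.natCast_zmod_val] using h1

lemma sep_add_nat {a b c d : ZMod n} (hac : a ≠ c) (hbd : b ≠ d) (s : ℕ) :
    O.sep (a + s) (b + s) (c + s) (d + s) ↔ O.sep a b c d := by
  induction s with
  | zero => simp
  | succ s ih =>
    rw [← ih, ← O.sep_add_one (a := a + s) (b := b + s) (c := c + s) (d := d + s)
      (fun h => hac (add_right_cancel h)) (fun h => hbd (add_right_cancel h))]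
    push_cast
    simp only [add_assoc]

lemma sep_add {a b c d : ZMod n} (hac : a ≠ c) (hbd : b ≠ d) (g : ZMod n) :
    O.sep (a + g) (b + g) (c + g) (d + g) ↔ O.sep a b c d := by
  have := O.sep_add_nat hac hbd g.val
  simpa [ZMod.natCast_zmod_val] using this

/-- clusters -/
def IsClus (S : Finset (ZMod n)) : Prop :=
  ∀ a ∈ S, ∀ b ∈ S, ∀ c, c ∉ S → ∀ d, d ∉ S → O.sep a b c d

lemma sep_symm {a b c d : ZMod n} (h : O.sep a b c d) : O.sep c d a b := by
  unfold sep at *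
  have e1 : v (O.B c d * O.B a b) = v (O.B a b * O.B c d) := by rw [mul_comm]
  have e2 : v (O.B c a * O.B d b) = v (O.B a c * O.B b d) := by
    rw [map_mul, map_mul, v_B_comm, v_B_comm O b d]
  rw [e1, e2]; exact h

lemma sep_swap {a b c d : ZMod n} (h : O.sep a b c d) : O.sep b a d c := by
  unfold sep at *
  have e1 : v (O.B b a * O.B d c) = v (O.B a b * O.B c d) := by
    rw [map_mul, map_mul, v_B_comm, v_B_comm O c d]
  rw [e1, mul_comm (O.B b d)]; exact h

lemma isClus_compl {S : Finset (ZMod n)} (h : O.IsClus S) : O.IsClus Sᶜ := by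
  intro a ha b hb c hc d hd
  rw [mem_compl] at ha hb
  rw [mem_compl, not_not] at hc hd
  exact O.sep_symm (h c hc d hd a ha b hb)

lemma isClus_singleton (a : ZMod n) : O.IsClus {a} := by
  intro x hx y hy c hc d hd
  rw [mem_singleton] at hx hy hc hd
  subst hx; subst hy
  unfold sep
  rw [B_self, zero_mul, map_zero, map_mul]
  exact mul_pos (O.vB_pos (Ne.symm hc)) (O.vB_pos (Ne.symm hd))

/-- translate of a finite set -/
def tr (g : ZMod n) (S : Finset (ZMod n)) : Finset (ZMod n) := S.image (fun a => a + g)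

omit [NeZero n] in
lemma mem_tr {g : ZMod n} {S : Finset (ZMod n)} {a : ZMod n} : a ∈ tr g S ↔ a - g ∈ S := by
  unfold tr
  rw [mem_image]
  constructor
  · rintro ⟨x, hx, rfl⟩; simpa using hx
  · intro h; exact ⟨a - g, h, by ring⟩

omit [NeZero n] in
lemma card_tr (g : ZMod n) (S : Finset (ZMod n)) : (tr g S).card = S.card :=
  card_image_of_injective _ (add_left_injective g)

lemma isClus_tr {S : Finset (ZMod n)} (h : O.IsClus S) (g : ZMod n) : O.IsClus (tr g S) := by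
  intro a ha b hb c hc d hd
  rw [mem_tr] at ha hb hc hd
  have h1 := h _ ha _ hb _ hc _ hd
  have hac : a - g ≠ c - g := by rintro h2; rw [h2] at ha; exact hc ha
  have hbd : b - g ≠ d - g := by rintro h2; rw [h2] at hb; exact hd hb
  have := (O.sep_add hac hbd g).2 h1
  simpa using this

lemma crossing {S T : Finset (ZMod n)} (hS : O.IsClus S) (hT : O.IsClus T) {x y z w : ZMod n}
    (hx : x ∈ S) (hx' : x ∈ T) (hy : y ∈ S) (hy' : y ∉ T) (hz : z ∉ S) (hz' : z ∈ T)
    (hw : w ∉ S) (hw' : w ∉ T) : False := by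
  have h1 : O.sep x y z w := hS x hx y hy z hz w hw
  have h2 : O.sep x z y w := hT x hx' z hz' y hy' w hw'
  exact lt_asymm h1 h2

/-- affine coordinate differences with respect to a reference point `x` -/
def F (x a b : ZMod n) : K := O.B a b / (O.B a x * O.B b x)

lemma F_add {x a b c : ZMod n} (ha : a ≠ x) (hb : b ≠ x) (hc : c ≠ x) :
    O.F x a b + O.F x b c = O.F x a c := by
  unfold F
  have h1 := O.B_ne ha
  have h2 := O.B_ne hb
  have h3 := O.B_ne hc
  have h4 := O.B_plucker a b c x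
  field_simp
  have e1 : O.B a x * O.B b c = O.B a c * O.B b x - O.B a b * O.B c x := by linear_combination h4
  linear_combination e1

lemma F_self (x a : ZMod n) : O.F x a a = 0 := by unfold F; rw [B_self, zero_div]

lemma F_neg (x a b : ZMod n) : O.F x b a = - O.F x a b := by
  unfold F; rw [B_comm, neg_div, mul_comm (O.B b x)]

lemma vF_comm (x a b : ZMod n) : v (O.F x b a) = v (O.F x a b) := by rw [F_neg, Valuation.map_neg]

lemma vF_le {x a b c : ZMod n} (ha : a ≠ x) (hb : b ≠ x) (hc : c ≠ x) :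
    v (O.F x a c) ≤ max (v (O.F x a b)) (v (O.F x b c)) := by
  rw [← O.F_add ha hb hc]; exact Valuation.map_add _ _ _

lemma sep_iff_F {x a b c : ZMod n} (ha : a ≠ x) (hb : b ≠ x) (hc : c ≠ x) :
    O.sep a b c x ↔ v (O.F x a b) < v (O.F x a c) := by
  unfold sep F
  have h1 := O.vB_pos ha
  have h2 := O.vB_pos hb
  have h3 := O.vB_pos hc
  simp only [map_mul, map_div₀]
  rw [div_lt_div_iff₀ (mul_pos h1 h2) (mul_pos h1 h3)]
  have e1 : v (O.B a b) * (v (O.B a x) * v (O.B c x)) = v (O.B a x) * (v (O.B a b) * v (O.B c x)) := by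
    ac_rfl
  have e2 : v (O.B a c) * (v (O.B a x) * v (O.B b x)) = v (O.B a x) * (v (O.B a c) * v (O.B b x)) := by
    ac_rfl
  rw [e1, e2]
  exact (mul_lt_mul_iff_right₀ h1).symm

/-- change of reference point inside a cluster -/
lemma v_change {S : Finset (ZMod n)} (h : O.IsClus S) {a b x d : ZMod n} (ha : a ∈ S) (hb : b ∈ S)
    (hx : x ∉ S) (hd : d ∉ S) : v (O.B a x * O.B b d) = v (O.B a d * O.B b x) := by
  have h1 : v (O.B a b * O.B x d) < v (O.B a x * O.B b d) := h a ha b hb x hx d hd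
  have h2 := O.B_plucker a b x d
  have h3 : O.B a d * O.B b x = O.B a x * O.B b d - O.B a b * O.B x d := by linear_combination h2
  rw [h3, Valuation.map_sub_eq_of_lt_left _ h1]

lemma sep_change {S : Finset (ZMod n)} (h : O.IsClus S) {a b c x d : ZMod n} (ha : a ∈ S) (hb : b ∈ S)
    (hc : c ∈ S) (hx : x ∉ S) (hd : d ∉ S) (hs : O.sep a b c x) : O.sep a b c d := by
  have h1 := O.v_change h hb hc hx hd
  have hbx : b ≠ x := by rintro rfl; exact hx hb
  have hbd : b ≠ d := by rintro rfl; exact hd hb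
  have p1 := O.vB_pos hbx
  have p2 := O.vB_pos hbd
  unfold sep at *
  simp only [map_mul] at *
  -- hs : v ab * v cx < v ac * v bx ;  h1 : v bx * v cd = v bd * v cx
  have h2 : v (O.B a b) * v (O.B c d) * v (O.B b x) < v (O.B a c) * v (O.B b d) * v (O.B b x) := by
    calc v (O.B a b) * v (O.B c d) * v (O.B b x) = v (O.B a b) * (v (O.B b x) * v (O.B c d)) := by ac_rfl
      _ = v (O.B a b) * (v (O.B b d) * v (O.B c x)) := by rw [h1]
      _ = v (O.B b d) * (v (O.B a b) * v (O.B c x)) := by ac_rfl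
      _ < v (O.B b d) * (v (O.B a c) * v (O.B b x)) := mul_lt_mul_of_pos_left hs p2
      _ = v (O.B a c) * v (O.B b d) * v (O.B b x) := by ac_rfl
  exact lt_of_mul_lt_mul_right h2 zero_le

/-- maximal distance in a finite set, seen from `x` -/
def IsMaxF (x : ZMod n) (C : Finset (ZMod n)) (δ : ℤᵐ⁰) : Prop :=
  0 < δ ∧ (∀ a ∈ C, ∀ b ∈ C, v (O.F x a b) ≤ δ) ∧ ∃ a ∈ C, ∃ b ∈ C, v (O.F x a b) = δ

lemma exists_maxF {x : ZMod n} {C : Finset (ZMod n)} (hx : x ∉ C) (hC : 2 ≤ C.card) :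
    ∃ δ, O.IsMaxF x C δ := by
  obtain ⟨a, ha, b, hb, hab⟩ := one_lt_card.1 (by omega : 1 < C.card)
  have hne : (C ×ˢ C).Nonempty := ⟨(a, b), mem_product.2 ⟨ha, hb⟩⟩
  obtain ⟨⟨c, d⟩, hcd, hmax⟩ := exists_max_image (C ×ˢ C) (fun x' => v (O.F x x'.1 x'.2)) hne
  rw [mem_product] at hcd
  refine ⟨v (O.F x c d), ?_, ?_, c, hcd.1, d, hcd.2, rfl⟩
  · refine lt_of_lt_of_le ?_ (hmax (a, b) (mem_product.2 ⟨ha, hb⟩))
    have hax : a ≠ x := by rintro rfl; exact hx ha
    have hbx : b ≠ x := by rintro rfl; exact hx hb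
    refine zero_lt_iff.2 ((Valuation.ne_zero_iff v).2 ?_)
    exact div_ne_zero (O.B_ne hab) (mul_ne_zero (O.B_ne hax) (O.B_ne hbx))
  · intro a' ha' b' hb'
    exact hmax (a', b') (mem_product.2 ⟨ha', hb'⟩)

/-- the canonical relation: two elements of `C` lie in a common proper subcluster -/
def rel (C : Finset (ZMod n)) (a b : ZMod n) : Prop := ∃ D, O.IsClus D ∧ D ⊂ C ∧ a ∈ D ∧ b ∈ D

lemma child_isClus {x : ZMod n} {C : Finset (ZMod n)} (hCl : O.IsClus C) (hx : x ∉ C) {δ : ℤᵐ⁰}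
    (hδ : O.IsMaxF x C δ) {a : ZMod n} (ha : a ∈ C) :
    O.IsClus (C.filter fun b => v (O.F x a b) < δ) := by
  have hne : ∀ y ∈ C, y ≠ x := by rintro y hy rfl; exact hx hy
  obtain ⟨hδ0, hδ1, hδ2⟩ := hδ
  -- distances inside and across the class
  have hin : ∀ b ∈ C, v (O.F x a b) < δ → ∀ b' ∈ C, v (O.F x a b') < δ → v (O.F x b b') < δ := by
    intro b hb h b' hb' h'
    refine lt_of_le_of_lt (O.vF_le (hne b hb) (hne a ha) (hne b' hb')) (max_lt ?_ h')
    rw [vF_comm]; exact h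
  have hout : ∀ b ∈ C, v (O.F x a b) < δ → ∀ c ∈ C, ¬ v (O.F x a c) < δ → v (O.F x b c) = δ := by
    intro b hb h c hc h'
    apply le_antisymm (hδ1 b hb c hc)
    by_contra hcon
    rw [not_le] at hcon
    exact h' (lt_of_le_of_lt (O.vF_le (hne a ha) (hne b hb) (hne c hc)) (max_lt h hcon))
  intro b hb b' hb' c hc d hd
  rw [mem_filter] at hb hb'
  by_cases hcC : c ∈ C
  · have hc' : ¬ v (O.F x a c) < δ := fun h => hc (mem_filter.2 ⟨hcC, h⟩)
    have h1 : v (O.F x b b') < v (O.F x b c) := by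
      rw [hout b hb.1 hb.2 c hcC hc']; exact hin b hb.1 hb.2 b' hb'.1 hb'.2
    by_cases hdC : d ∈ C
    · have hd' : ¬ v (O.F x a d) < δ := fun h => hd (mem_filter.2 ⟨hdC, h⟩)
      have e1 := hout b hb.1 hb.2 c hcC hc'
      have e2 := hout b' hb'.1 hb'.2 d hdC hd'
      have e3 : v (O.F x b b') < δ := hin b hb.1 hb.2 b' hb'.1 hb'.2
      have e4 : v (O.F x c d) ≤ δ := hδ1 c hcC d hdC
      have e5 : v (O.F x b b' * O.F x c d) < v (O.F x b c * O.F x b' d) := by
        rw [map_mul, map_mul, e1, e2]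
        calc v (O.F x b b') * v (O.F x c d) ≤ v (O.F x b b') * δ := by gcongr
          _ < δ * δ := mul_lt_mul_of_pos_right e3 hδ0
      unfold sep
      have pb := O.B_ne (hne b hb.1)
      have pb' := O.B_ne (hne b' hb'.1)
      have pc := O.B_ne (hne c hcC)
      have pd := O.B_ne (hne d hdC)
      have e6 : O.B b b' * O.B c d = (O.F x b b' * O.F x c d) * (O.B b x * O.B b' x * O.B c x * O.B d x) := by
        unfold F; field_simp
      have e7 : O.B b c * O.B b' d = (O.F x b c * O.F x b' d) * (O.B b x * O.B b' x * O.B c x * O.B d x) := by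
        unfold F; field_simp
      rw [e6, e7, map_mul v (O.F x b b' * O.F x c d), map_mul v (O.F x b c * O.F x b' d)]
      exact mul_lt_mul_of_pos_right e5 (zero_lt_iff.2 ((Valuation.ne_zero_iff v).2
        (mul_ne_zero (mul_ne_zero (mul_ne_zero pb pb') pc) pd)))
    · exact O.sep_change hCl hb.1 hb'.1 hcC hx hdC
        ((O.sep_iff_F (hne b hb.1) (hne b' hb'.1) (hne c hcC)).2 h1)
  · by_cases hdC : d ∈ C
    · have hd' : ¬ v (O.F x a d) < δ := fun h => hd (mem_filter.2 ⟨hdC, h⟩)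
      have h1 : v (O.F x b' b) < v (O.F x b' d) := by
        rw [hout b' hb'.1 hb'.2 d hdC hd']; exact hin b' hb'.1 hb'.2 b hb.1 hb.2
      exact O.sep_swap (O.sep_change hCl hb'.1 hb.1 hdC hx hcC
        ((O.sep_iff_F (hne b' hb'.1) (hne b hb.1) (hne d hdC)).2 h1))
    · exact hCl b hb.1 b' hb'.1 c hcC d hdC

lemma rel_iff {x : ZMod n} {C : Finset (ZMod n)} (hCl : O.IsClus C) (hx : x ∉ C) {δ : ℤᵐ⁰}
    (hδ : O.IsMaxF x C δ) {a b : ZMod n} (ha : a ∈ C) (hb : b ∈ C) :
    O.rel C a b ↔ v (O.F x a b) < δ := by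
  have hne : ∀ y ∈ C, y ≠ x := by rintro y hy rfl; exact hx hy
  have hδ' := hδ
  obtain ⟨hδ0, hδ1, c1, hc1, c2, hc2, hδ2⟩ := hδ
  constructor
  · rintro ⟨D, hD, hDC, haD, hbD⟩
    obtain ⟨c, hc, hcD⟩ := exists_of_ssubset hDC
    have hxD : x ∉ D := fun h => hx (hDC.1 h)
    have h1 := hD a haD b hbD c hcD x hxD
    exact lt_of_lt_of_le ((O.sep_iff_F (hne a ha) (hne b hb) (hne c hc)).1 h1) (hδ1 a ha c hc)
  · intro h
    refine ⟨_, O.child_isClus hCl hx hδ' ha, ?_, mem_filter.2 ⟨ha, ?_⟩, mem_filter.2 ⟨hb, h⟩⟩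
    · rw [Finset.ssubset_iff_of_subset (filter_subset _ _)]
      by_contra hcon
      push Not at hcon
      have e1 := (mem_filter.1 (hcon c1 hc1)).2
      have e2 := (mem_filter.1 (hcon c2 hc2)).2
      have e3 := O.vF_le (hne c1 hc1) (hne a ha) (hne c2 hc2)
      rw [hδ2, vF_comm O x a c1] at e3
      exact absurd (lt_of_le_of_lt e3 (max_lt e1 e2)) (lt_irrefl _)
    · rw [F_self, map_zero]; exact hδ0

lemma rel_card {x : ZMod n} {C : Finset (ZMod n)} (hCl : O.IsClus C) (hx : x ∉ C)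
    (hC : 2 ≤ C.card) {T : Finset (ZMod n)} (hT : T ⊆ C)
    (hpair : ∀ a ∈ T, ∀ b ∈ T, a ≠ b → ¬ O.rel C a b) : T.card ≤ q := by
  classical
  have hne : ∀ y ∈ C, y ≠ x := by rintro y hy rfl; exact hx hy
  obtain ⟨δ, hδ⟩ := O.exists_maxF hx hC
  have hδ' := hδ
  obtain ⟨hδ0, hδ1, c1, hc1, c2, hc2, hδ2⟩ := hδ
  have he0 : O.F x c1 c2 ≠ 0 := by
    rw [← Valuation.ne_zero_iff v, hδ2]; exact hδ0.ne'
  have hd : ∀ a ∈ T, ∀ b ∈ T, a ≠ b → v (O.F x a c1 / O.F x c1 c2 - O.F x b c1 / O.F x c1 c2) = 1 := by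
    intro a ha b hb hab
    have e1 : O.F x a c1 / O.F x c1 c2 - O.F x b c1 / O.F x c1 c2 = O.F x a b / O.F x c1 c2 := by
      rw [← O.F_add (hne a (hT ha)) (hne c1 hc1) (hne b (hT hb)), O.F_neg x b c1]
      ring
    rw [e1, map_div₀, hδ2]
    have e2 : v (O.F x a b) = δ := by
      apply le_antisymm (hδ1 a (hT ha) b (hT hb))
      rw [← not_lt, ← O.rel_iff hCl hx hδ' (hT ha) (hT hb)]
      exact hpair a ha b hb hab
    rw [e2, div_self hδ0.ne']
  have hinj : Set.InjOn (fun a => O.F x a c1 / O.F x c1 c2) T := by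
    intro a ha b hb hab
    by_contra hne'
    have := hd a ha b hb hne'
    simp only at hab
    rw [hab, sub_self, map_zero] at this
    exact zero_ne_one this
  have h1 := O.hv.card_le (T.image fun a => O.F x a c1 / O.F x c1 c2) (by
    intro x' hx' y' hy' hxy
    rw [mem_image] at hx' hy'
    obtain ⟨a, ha, rfl⟩ := hx'
    obtain ⟨b, hb, rfl⟩ := hy'
    exact hd a ha b hb (by rintro rfl; exact hxy rfl))
  rwa [card_image_of_injOn hinj] at h1

end Orb

end Pool.Agent.H504E
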