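import Pool.Agent.H504E.Chain

set_option autoImplicit false

open Finset Pool.Agent.H504R2 Pool.Agent.H504D

namespace Pool.Agent.H504E

lemma map_stage {R S : Type} [CommRing R] [CommRing S] (φ : R →+* S) (m : ℕ) (a : R)
    (A : Matrix (Fin 2) (Fin 2) R) (x : Fin 2 → R) (i : Fin 2) :
    φ (stage m a A x i) = stage m (φ a) (A.map φ) (fun j => φ (x j)) i := by
  unfold stage
  simp only [Matrix.mulVec, dotProduct, Fin.sum_univ_two, Matrix.cons_val_zero, Matrix.cons_val_one,
    Matrix.map_apply, map_add, map_mul, map_pow, map_dk]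

lemma map_run {R S : Type} [CommRing R] [CommRing S] (φ : R →+* S) (m : ℕ → ℕ) (a : ℕ → R)
    (A : ℕ → Matrix (Fin 2) (Fin 2) R) (x : Fin 2 → R) (t : ℕ) (i : Fin 2) :
    φ (run m a A x t i) = run m (fun t => φ (a t)) (fun t => (A t).map φ) (fun j => φ (x j)) t i := by
  induction t generalizing i with
  | zero => rfl
  | succ t ih =>
    show φ (stage (m t) (a t) (A t) (run m a A x t) i) = stage (m t) (φ (a t)) ((A t).map φ) _ i
    rw [map_stage]
    congr 1
    funext j
    exact ih j

variable {K : Type} [Field K]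

lemma dk_homogeneous {X A : MvPolynomial (Fin 2) K} {E : ℕ} (hX : X.IsHomogeneous E)
    (hA : A.IsHomogeneous (2 * E)) (m : ℕ) : (dk A X m).IsHomogeneous (m * E) := by
  induction m using Nat.twoStepInduction with
  | zero =>
    rw [zero_mul]
    have : (dk A X 0) = MvPolynomial.C (2 : K) := by
      show (2 : MvPolynomial (Fin 2) K) = _
      rw [map_ofNat]
    rw [this]
    exact MvPolynomial.isHomogeneous_C _ _
  | one => rw [one_mul]; exact hX
  | more m h1 h2 =>
    have e1 : (m + 2) * E = E + (m + 1) * E := by ring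
    have e2 : (m + 2) * E = 2 * E + m * E := by ring
    apply MvPolynomial.IsHomogeneous.sub
    · rw [e1]; exact hX.mul h2
    · rw [e2]; exact hA.mul h1

/-- the pair of forms given by a chain -/
noncomputable def form (m : ℕ → ℕ) (a : ℕ → K) (A : ℕ → Matrix (Fin 2) (Fin 2) K) (t : ℕ) :
    Fin 2 → MvPolynomial (Fin 2) K :=
  run m (fun t => MvPolynomial.C (a t)) (fun t => (A t).map MvPolynomial.C) MvPolynomial.X t

lemma form_homogeneous (m : ℕ → ℕ) (a : ℕ → K) (A : ℕ → Matrix (Fin 2) (Fin 2) K) (t : ℕ) :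
    ∀ i, (form m a A t i).IsHomogeneous (∏ s ∈ range t, m s) := by
  induction t with
  | zero =>
    intro i
    rw [Finset.prod_range_zero]
    exact MvPolynomial.isHomogeneous_X _ i
  | succ t ih =>
    intro i
    rw [Finset.prod_range_succ, mul_comm]
    set E := ∏ s ∈ range t, m s with hE
    have h0 : (dk (MvPolynomial.C (a t) * form m a A t 1 ^ 2) (form m a A t 0) (m t)).IsHomogeneous (m t * E) := by
      apply dk_homogeneous (ih 0)
      have h1 : (MvPolynomial.C (a t) * form m a A t 1 ^ 2).IsHomogeneous (0 + E * 2) :=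
        (MvPolynomial.isHomogeneous_C _ _).mul ((ih 1).pow 2)
      rwa [zero_add, mul_comm E 2] at h1
    have h1 : (form m a A t 1 ^ m t).IsHomogeneous (m t * E) := by
      have := (ih 1).pow (m t)
      rwa [mul_comm] at this
    have h2 : form m a A (t + 1) i = MvPolynomial.C (A t i 0) *
        dk (MvPolynomial.C (a t) * form m a A t 1 ^ 2) (form m a A t 0) (m t) +
        MvPolynomial.C (A t i 1) * form m a A t 1 ^ m t := by
      show stage (m t) (MvPolynomial.C (a t)) ((A t).map MvPolynomial.C) (form m a A t) i = _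
      unfold stage
      simp [Matrix.mulVec, dotProduct, Fin.sum_univ_two]
    rw [h2]
    apply MvPolynomial.IsHomogeneous.add
    · have := (MvPolynomial.isHomogeneous_C (Fin 2) (A t i 0)).mul h0
      rwa [zero_add] at this
    · have := (MvPolynomial.isHomogeneous_C (Fin 2) (A t i 1)).mul h1
      rwa [zero_add] at this

lemma form_aeval {L : Type} [Field L] [Algebra K L] (m : ℕ → ℕ) (a : ℕ → K)
    (A : ℕ → Matrix (Fin 2) (Fin 2) K) (t : ℕ) (x : Fin 2 → L) (i : Fin 2) :
    MvPolynomial.aeval x (form m a A t i) =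
      run m (fun t => algebraMap K L (a t)) (fun t => (A t).map (algebraMap K L)) x t i := by
  have h := map_run (MvPolynomial.aeval x : MvPolynomial (Fin 2) K →ₐ[K] L).toRingHom m
    (fun t => MvPolynomial.C (a t)) (fun t => (A t).map MvPolynomial.C) MvPolynomial.X t i
  have e1 : (fun t => (MvPolynomial.aeval x : MvPolynomial (Fin 2) K →ₐ[K] L).toRingHom (MvPolynomial.C (a t))) =
      fun t => algebraMap K L (a t) := by
    funext t; simp
  have e2 : (fun t => ((A t).map (MvPolynomial.C : K →+* MvPolynomial (Fin 2) K)).map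
      (MvPolynomial.aeval x : MvPolynomial (Fin 2) K →ₐ[K] L).toRingHom) =
      fun t => (A t).map (algebraMap K L) := by
    funext t
    ext i j
    simp
  have e3 : (fun j => (MvPolynomial.aeval x : MvPolynomial (Fin 2) K →ₐ[K] L).toRingHom (MvPolynomial.X j)) = x := by
    funext j; simp
  rw [e1, e2, e3] at h
  exact h

/-- number of fixed points of a chain -/
theorem count_chain {m : ℕ → ℕ} {a : ℕ → K} {A : ℕ → Matrix (Fin 2) (Fin 2) K} {t : ℕ}
    (hm : ∀ t, 1 ≤ m t) (hA : ∀ t, (A t).det ≠ 0) (he : 2 ≤ ∏ s ∈ range t, m s)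
    (S : Finset (Fin 2 → K)) (hS0 : ∀ x ∈ S, x ≠ 0)
    (hSp : ∀ x ∈ S, ∀ y ∈ S, ∀ c : K, x = c • y → x = y)
    (hfix : ∀ x ∈ S, ∃ c : K, run m a A x t = c • x) : S.card ≤ (∏ s ∈ range t, m s) + 2 := by
  apply count_fixed he (form_homogeneous m a A t) _ S hS0 hSp
  · intro x hx
    obtain ⟨c, hc⟩ := hfix x hx
    refine ⟨c, ?_⟩
    rw [← hc]
    funext i
    have h := form_aeval (L := K) m a A t x i
    have h2 : MvPolynomial.aeval x (form m a A t i) = MvPolynomial.eval x (form m a A t i) :=
      RingHom.congr_fun (MvPolynomial.coe_aeval_eq_eval _) _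
    rw [← h2, h]
    congr 1
  · intro x hx
    by_contra hne
    have h1 : run m (fun t => algebraMap K (AlgebraicClosure K) (a t))
        (fun t => (A t).map (algebraMap K (AlgebraicClosure K))) x t ≠ 0 := by
      apply run_ne hm _ hne
      intro t
      rw [← RingHom.mapMatrix_apply, ← RingHom.map_det]
      exact (map_ne_zero _).2 (hA t)
    apply h1
    funext i
    rw [← form_aeval]
    exact hx i

end Pool.Agent.H504E
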