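import Pool.Agent.H504D.Kern

set_option autoImplicit false

open Finset Pool.Agent.H504R2 Pool.Agent.H504D
open scoped WithZero

namespace Pool.Agent.H504E

variable {K : Type} [Field K] {v : Valuation K ℤᵐ⁰} {p q k n : ℕ}

/-- bracket of two vectors -/
def br (x y : Fin 2 → K) : K := x 0 * y 1 - x 1 * y 0

/-- the weight of a pair of vectors relative to the Dickson parameter `a` -/
def wt (v : Valuation K ℤᵐ⁰) (a : K) (x y : Fin 2 → K) : ℤᵐ⁰ :=
  W3 v (a * (x 1 * y 1) ^ 2) (x 0 * y 1) (x 1 * y 0)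

/-- the cofactor -/
def hh (m : ℕ) (a : K) (x y : Fin 2 → K) : K := kh (a * (x 1 * y 1) ^ 2) (x 0 * y 1) (x 1 * y 0) m

lemma plucker (x y z w : Fin 2 → K) : br x y * br z w - br x z * br y w + br x w * br y z = 0 := by
  unfold br; ring

lemma br_comm (x y : Fin 2 → K) : br y x = - br x y := by unfold br; ring

lemma v_br_comm (x y : Fin 2 → K) : v (br y x) = v (br x y) := by
  rw [br_comm, Valuation.map_neg]

lemma br_self (x : Fin 2 → K) : br x x = 0 := by unfold br; ring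

lemma wt_comm (a : K) (x y : Fin 2 → K) : wt v a y x = wt v a x y := by
  unfold wt
  rw [W3_comm, mul_comm (y 1) (x 1), mul_comm (y 0), mul_comm (y 1) (x 0)]

lemma hh_comm (m : ℕ) (a : K) (x y : Fin 2 → K) : hh m a y x = hh m a x y := by
  unfold hh
  rw [kh_comm, mul_comm (y 1) (x 1), mul_comm (y 0), mul_comm (y 1) (x 0)]

lemma br_sq_le_wt (a : K) (x y : Fin 2 → K) : v (br x y) ^ 2 ≤ wt v a x y := by
  unfold wt W3 br
  refine le_trans ?_ (le_max_left _ _)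
  rcases le_total (v (x 0 * y 1)) (v (x 1 * y 0)) with h | h
  · exact (pow_le_pow_left₀ zero_le ((Valuation.map_sub _ _ _).trans (max_le h le_rfl)) 2).trans (le_max_right _ _)
  · exact (pow_le_pow_left₀ zero_le ((Valuation.map_sub _ _ _).trans (max_le le_rfl h)) 2).trans (le_max_left _ _)

lemma br_sq_eq_wt (a : K) (x y : Fin 2 → K) (h : v (x 0 * y 1) ≠ v (x 1 * y 0))
    (h2 : v (a * (x 1 * y 1) ^ 2) ≤ max (v (x 0 * y 1) ^ 2) (v (x 1 * y 0) ^ 2)) :
    v (br x y) ^ 2 = wt v a x y := by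
  unfold wt W3 br
  rw [max_eq_left h2]
  rcases lt_or_gt_of_ne h with h | h
  · rw [Valuation.map_sub_eq_of_lt_right _ h, max_eq_right (pow_le_pow_left₀ zero_le h.le 2)]
  · rw [Valuation.map_sub_eq_of_lt_left _ h, max_eq_left (pow_le_pow_left₀ zero_le h.le 2)]

lemma wt_ge0 (a : K) (x y : Fin 2 → K) : v (x 0 * y 1) ^ 2 ≤ wt v a x y :=
  (le_max_left _ _).trans (le_max_left _ _)

lemma wt_ge1 (a : K) (x y : Fin 2 → K) : v (x 1 * y 0) ^ 2 ≤ wt v a x y :=
  (le_max_right _ _).trans (le_max_left _ _)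

lemma wt_ge2 (a : K) (x y : Fin 2 → K) : v (a * (x 1 * y 1) ^ 2) ≤ wt v a x y := le_max_right _ _

lemma wt_cases (a : K) (x y : Fin 2 → K) : wt v a x y = v (x 0 * y 1) ^ 2 ∨
    wt v a x y = v (x 1 * y 0) ^ 2 ∨ wt v a x y = v (a * (x 1 * y 1) ^ 2) := by
  unfold wt W3
  rcases max_choice (max (v (x 0 * y 1) ^ 2) (v (x 1 * y 0) ^ 2)) (v (a * (x 1 * y 1) ^ 2)) with h | h
  · rw [h]
    rcases max_choice (v (x 0 * y 1) ^ 2) (v (x 1 * y 0) ^ 2) with h' | h'
    · rw [h']; exact Or.inl rfl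
    · rw [h']; exact Or.inr (Or.inl rfl)
  · rw [h]; exact Or.inr (Or.inr rfl)

lemma wt_mul_le_of_eq (a : K) (x y z w : Fin 2 → K) (h : v (x 0 * y 1) = v (x 1 * y 0))
    (hw : wt v a x y = v (x 0 * y 1) ^ 2) : wt v a x y * wt v a z w ≤ wt v a x z * wt v a y w := by
  have hw' : wt v a x y = v (x 1 * y 0) ^ 2 := by rw [hw, h]
  rcases wt_cases (v := v) a z w with hz | hz | hz
  · calc wt v a x y * wt v a z w = v (x 1 * z 0) ^ 2 * v (y 0 * w 1) ^ 2 := by
          rw [hw', hz]; simp only [← map_pow, ← map_mul]; congr 1; ring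
      _ ≤ _ := mul_le_mul' (wt_ge1 _ _ _) (wt_ge0 _ _ _)
  · calc wt v a x y * wt v a z w = v (x 0 * z 1) ^ 2 * v (y 1 * w 0) ^ 2 := by
          rw [hw, hz]; simp only [← map_pow, ← map_mul]; congr 1; ring
      _ ≤ _ := mul_le_mul' (wt_ge0 _ _ _) (wt_ge1 _ _ _)
  · calc wt v a x y * wt v a z w = v (x 0 * z 1) ^ 2 * v (a * (y 1 * w 1) ^ 2) := by
          rw [hw, hz]; simp only [← map_pow, ← map_mul]; congr 1; ring
      _ ≤ _ := mul_le_mul' (wt_ge0 _ _ _) (wt_ge2 _ _ _)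

lemma wt_mul_le_of_a (a : K) (x y z w : Fin 2 → K) (hw : wt v a x y = v (a * (x 1 * y 1) ^ 2)) :
    wt v a x y * wt v a z w ≤ wt v a x z * wt v a y w := by
  rcases wt_cases (v := v) a z w with hz | hz | hz
  · calc wt v a x y * wt v a z w = v (x 1 * z 0) ^ 2 * v (a * (y 1 * w 1) ^ 2) := by
          rw [hw, hz]; simp only [← map_pow, ← map_mul]; congr 1; ring
      _ ≤ _ := mul_le_mul' (wt_ge1 _ _ _) (wt_ge2 _ _ _)
  · calc wt v a x y * wt v a z w = v (a * (x 1 * z 1) ^ 2) * v (y 1 * w 0) ^ 2 := by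
          rw [hw, hz]; simp only [← map_pow, ← map_mul]; congr 1; ring
      _ ≤ _ := mul_le_mul' (wt_ge2 _ _ _) (wt_ge1 _ _ _)
  · calc wt v a x y * wt v a z w = v (a * (x 1 * z 1) ^ 2) * v (a * (y 1 * w 1) ^ 2) := by
          rw [hw, hz]; simp only [← map_pow, ← map_mul]; congr 1; ring
      _ ≤ _ := mul_le_mul' (wt_ge2 _ _ _) (wt_ge2 _ _ _)

/-- a pair with strictly larger product of weights is unambiguous -/
lemma br_sq_eq_of_lt (a : K) (x y z w : Fin 2 → K)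
    (h : wt v a x z * wt v a y w < wt v a x y * wt v a z w) : v (br x y) ^ 2 = wt v a x y := by
  have h2 : ¬ wt v a x y = v (a * (x 1 * y 1) ^ 2) := fun he =>
    absurd (wt_mul_le_of_a a x y z w he) (not_le.2 h)
  have h1 : v (x 0 * y 1) ≠ v (x 1 * y 0) := by
    intro he
    rcases wt_cases (v := v) a x y with hz | hz | hz
    · exact absurd (wt_mul_le_of_eq a x y z w he hz) (not_le.2 h)
    · rw [← he] at hz
      exact absurd (wt_mul_le_of_eq a x y z w he hz) (not_le.2 h)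
    · exact h2 hz
  apply br_sq_eq_wt a x y h1
  by_contra hcon
  rw [not_le] at hcon
  exact h2 (max_eq_right hcon.le)

/-- The four point lemma. -/
lemma four_point (a : K) (x y z w : Fin 2 → K)
    (h : wt v a x z * wt v a y w < wt v a x y * wt v a z w) :
    v (br x z * br y w) < v (br x y * br z w) := by
  have h1 := br_sq_eq_of_lt a x y z w h
  have h2 : v (br z w) ^ 2 = wt v a z w := by
    apply br_sq_eq_of_lt a z w x y
    rw [mul_comm (wt v a z w), wt_comm a x z, wt_comm a y w]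
    exact h
  apply lt_of_pow_lt_pow_left₀ 2 zero_le
  calc v (br x z * br y w) ^ 2 = v (br x z) ^ 2 * v (br y w) ^ 2 := by rw [map_mul, mul_pow]
    _ ≤ wt v a x z * wt v a y w := mul_le_mul' (br_sq_le_wt _ _ _) (br_sq_le_wt _ _ _)
    _ < wt v a x y * wt v a z w := h
    _ = v (br x y * br z w) ^ 2 := by rw [map_mul, mul_pow, h1, h2]

/-- A periodic orbit (of exact period `n`) of a composite of `k` stage maps. -/
structure Orb (v : Valuation K ℤᵐ⁰) (p q k n : ℕ) where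
  hv : IsPlace v p q
  hp : p.Prime
  hq : ∃ f, q = p ^ f
  X : ℕ → Fin 2 → K
  m : ℕ → ℕ
  a : ℕ → K
  D : ℕ → K
  D_ne : ∀ t, D t ≠ 0
  k_pos : 0 < k
  n_pos : 0 < n
  adm : ∀ t, Adm p q (m t) (a t)
  m_per : ∀ t, m (t + k) = m t
  a_per : ∀ t, a (t + k) = a t
  step : ∀ i j t, br (X (i * k + (t + 1))) (X (j * k + (t + 1))) =
    D t * hh (m t) (a t) (X (i * k + t)) (X (j * k + t)) * br (X (i * k + t)) (X (j * k + t))
  X_ne : ∀ t, X t ≠ 0
  per : ∀ t, ∃ c : K, c ≠ 0 ∧ X (t + n * k) = c • X t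
  dist : ∀ i j, br (X (i * k + 0)) (X (j * k + 0)) = 0 ↔ i ≡ j [MOD n]

/-- admissibility is inherited by scaled parameters -/
lemma adm_smul {m : ℕ} {a : K} (h : Adm p q m a) (c : K) : Adm p q m (a * c) :=
  ⟨h.pos, h.cp, h.cq, h.cA.imp (fun h => by rw [h, zero_mul]) id⟩

lemma v_hh (hv : IsPlace v p q) (hp : p.Prime) (hq : ∃ f, q = p ^ f) {m : ℕ} {a : K}
    (hm : Adm p q m a) (x y : Fin 2 → K) : v (hh m a x y) ^ 2 = (wt v a x y) ^ (m - 1) :=
  v_kh hv hp hq (adm_smul hm _) _ _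

namespace Orb

variable (O : Orb v p q k n)

/-- the point with index `i` at time `t` -/
def pt (i t : ℕ) : Fin 2 → K := O.X (i * k + t)

/-- bracket of the points with indices `i`, `j` at time `t` -/
def b (i j t : ℕ) : K := br (O.pt i t) (O.pt j t)

/-- cofactor of the points with indices `i`, `j` at time `t` -/
def h (i j t : ℕ) : K := hh (O.m t) (O.a t) (O.pt i t) (O.pt j t)

/-- weight of the points with indices `i`, `j` at time `t` -/
def w (i j t : ℕ) : ℤᵐ⁰ := wt v (O.a t) (O.pt i t) (O.pt j t)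

lemma b_succ (i j t : ℕ) : O.b i j (t + 1) = O.D t * O.h i j t * O.b i j t := O.step i j t

lemma b_comm (i j t : ℕ) : O.b j i t = - O.b i j t := br_comm _ _

lemma v_b_comm (i j t : ℕ) : v (O.b j i t) = v (O.b i j t) := v_br_comm _ _

lemma h_comm (i j t : ℕ) : O.h j i t = O.h i j t := hh_comm _ _ _ _

lemma w_comm (i j t : ℕ) : O.w j i t = O.w i j t := wt_comm _ _ _

lemma v_h (i j t : ℕ) : v (O.h i j t) ^ 2 = (O.w i j t) ^ (O.m t - 1) :=
  v_hh O.hv O.hp O.hq (O.adm t) _ _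

lemma v_b_le (i j t : ℕ) : v (O.b i j t) ^ 2 ≤ O.w i j t := br_sq_le_wt _ _ _

lemma w_pos {i j t : ℕ} (h : O.b i j t ≠ 0) : 0 < O.w i j t :=
  lt_of_lt_of_le (pow_pos (zero_lt_iff.2 ((Valuation.ne_zero_iff v).2 h)) 2) (O.v_b_le i j t)

lemma h_ne {i j t : ℕ} (h : O.b i j t ≠ 0) : O.h i j t ≠ 0 := by
  intro h0
  have h1 := O.v_h i j t
  rw [h0, map_zero, zero_pow two_ne_zero] at h1
  exact (pow_pos (O.w_pos h) _).ne h1

lemma b_eq_zero (i j t : ℕ) : O.b i j t = 0 ↔ i ≡ j [MOD n] := by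
  induction t with
  | zero => exact O.dist i j
  | succ t ih =>
    rw [← ih, b_succ]
    constructor
    · intro h
      by_contra hne
      exact (mul_ne_zero (mul_ne_zero (O.D_ne t) (O.h_ne hne)) hne) h
    · intro h; rw [h, mul_zero]

lemma b_ne {i j : ℕ} (hij : ¬ i ≡ j [MOD n]) (t : ℕ) : O.b i j t ≠ 0 :=
  fun h => hij ((O.b_eq_zero i j t).1 h)

lemma pt_shift (i t : ℕ) : O.pt i (t + k) = O.pt (i + 1) t := by
  unfold pt; congr 1; ring

lemma pt_per (i t : ℕ) : ∃ c : K, c ≠ 0 ∧ O.pt (i + n) t = c • O.pt i t := by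
  obtain ⟨c, hc, h⟩ := O.per (i * k + t)
  refine ⟨c, hc, ?_⟩
  unfold pt; rw [← h]; congr 1; ring

lemma pt_per' (i t : ℕ) : ∃ c : K, c ≠ 0 ∧ O.pt i (t + n * k) = c • O.pt i t := by
  obtain ⟨c, hc, h⟩ := O.per (i * k + t)
  refine ⟨c, hc, ?_⟩
  unfold pt; rw [← h]; congr 1; ring

lemma br_smul (c d : K) (x y : Fin 2 → K) : br (c • x) (d • y) = c * d * br x y := by
  simp only [br, Pi.smul_apply, smul_eq_mul]; ring

/-- valuation of the first product -/
def R (i j l r t : ℕ) : ℤᵐ⁰ := v (O.b i j t * O.b l r t)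

/-- valuation of the product of the cofactors -/
def Q (i j l r t : ℕ) : ℤᵐ⁰ := v (O.h i j t * O.h l r t)

lemma Q_sq (i j l r t : ℕ) : O.Q i j l r t ^ 2 = (O.w i j t * O.w l r t) ^ (O.m t - 1) := by
  unfold Q
  rw [map_mul, mul_pow, v_h, v_h, mul_pow]

lemma R_succ (i j l r t : ℕ) : O.R i j l r (t + 1) =
    v (O.D t) ^ 2 * O.Q i j l r t * O.R i j l r t := by
  unfold R Q
  rw [b_succ, b_succ, ← map_pow, ← map_mul, ← map_mul]
  congr 1
  ring

lemma R_pos {i j l r : ℕ} (hij : ¬ i ≡ j [MOD n]) (hlr : ¬ l ≡ r [MOD n]) (t : ℕ) :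
    0 < O.R i j l r t :=
  zero_lt_iff.2 ((Valuation.ne_zero_iff v).2 (mul_ne_zero (O.b_ne hij t) (O.b_ne hlr t)))

lemma Q_pos {i j l r : ℕ} (hij : ¬ i ≡ j [MOD n]) (hlr : ¬ l ≡ r [MOD n]) (t : ℕ) :
    0 < O.Q i j l r t :=
  zero_lt_iff.2 ((Valuation.ne_zero_iff v).2 (mul_ne_zero (O.h_ne (O.b_ne hij t)) (O.h_ne (O.b_ne hlr t))))

lemma Q_le {i j l r i' j' l' r' t : ℕ} (h : O.w i j t * O.w l r t ≤ O.w i' j' t * O.w l' r' t) :
    O.Q i j l r t ≤ O.Q i' j' l' r' t := by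
  by_contra hcon
  rw [not_le] at hcon
  have h1 := pow_lt_pow_left₀ hcon zero_le two_ne_zero
  rw [Q_sq, Q_sq] at h1
  exact absurd (pow_le_pow_left₀ zero_le h _) (not_le.2 h1)

lemma R_per (i j l r t : ℕ) : O.R i j l r (t + n * k) * O.R i l j r t = O.R i j l r t * O.R i l j r (t + n * k) := by
  obtain ⟨ci, hci, hi⟩ := O.pt_per' i t
  obtain ⟨cj, hcj, hj⟩ := O.pt_per' j t
  obtain ⟨cl, hcl, hl⟩ := O.pt_per' l t
  obtain ⟨cr, hcr, hr⟩ := O.pt_per' r t
  unfold R b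
  rw [hi, hj, hl, hr]
  simp only [br_smul]
  rw [← map_mul, ← map_mul]
  congr 1
  ring

/-- no strict inequality can occur along a periodic orbit -/
lemma no_strict {i j l r : ℕ} (hij : ¬ i ≡ j [MOD n]) (hlr : ¬ l ≡ r [MOD n])
    (hil : ¬ i ≡ l [MOD n]) (hjr : ¬ j ≡ r [MOD n]) (t : ℕ) :
    ¬ O.Q i j l r t < O.Q i l j r t := by
  intro hlt
  set ρ : ℕ → ℤᵐ⁰ := fun s => O.R i j l r s / O.R i l j r s with hρ
  have hSpos : ∀ s, 0 < O.R i l j r s := O.R_pos hil hjr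
  have hRpos : ∀ s, 0 < O.R i j l r s := O.R_pos hij hlr
  have hD : ∀ s, 0 < v (O.D s) ^ 2 := fun s =>
    pow_pos (zero_lt_iff.2 ((Valuation.ne_zero_iff v).2 (O.D_ne s))) _
  have hwpos : ∀ s, 0 < O.Q i l j r s := O.Q_pos hil hjr
  have hρs : ∀ s, ρ (s + 1) = ρ s * (O.Q i j l r s / O.Q i l j r s) := by
    intro s
    simp only [hρ, R_succ]
    rw [mul_div_mul_comm, mul_div_mul_left _ _ (hD s).ne', mul_comm]
  have hρpos : ∀ s, 0 < ρ s := fun s => div_pos (hRpos s) (hSpos s)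
  -- monotonicity below one
  have hmono : ∀ s, ρ s < 1 → ρ (s + 1) ≤ ρ s := by
    intro s hs
    rw [hρs s]
    have h1 : O.w i j s * O.w l r s ≤ O.w i l s * O.w j r s := by
      by_contra hcon
      have h2 := four_point (O.a s) (O.pt i s) (O.pt j s) (O.pt l s) (O.pt r s) (not_le.1 hcon)
      have h3 : O.R i l j r s < O.R i j l r s := h2
      have h4 : ¬ ρ s < 1 := by
        rw [not_lt]
        exact (one_le_div₀ (hSpos s)).2 h3.le
      exact h4 hs
    have h2 : O.Q i j l r s / O.Q i l j r s ≤ 1 := (div_le_one₀ (hwpos s)).2 (O.Q_le h1)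
    calc ρ s * _ ≤ ρ s * 1 := by gcongr
      _ = ρ s := mul_one _
  have h0 : ρ t < 1 := by
    have h1 : O.w i j t * O.w l r t < O.w i l t * O.w j r t := by
      by_contra hcon
      rw [not_lt] at hcon
      exact absurd (O.Q_le hcon) (not_le.2 hlt)
    have h2 := four_point (O.a t) (O.pt i t) (O.pt l t) (O.pt j t) (O.pt r t) h1
    exact (div_lt_one₀ (hSpos t)).2 h2
  have h1 : ρ (t + 1) < ρ t := by
    rw [hρs t]
    have h2 : O.Q i j l r t / O.Q i l j r t < 1 := (div_lt_one₀ (hwpos t)).2 hlt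
    calc ρ t * _ < ρ t * 1 := mul_lt_mul_of_pos_left h2 (hρpos t)
      _ = ρ t := mul_one _
  have h2 : ∀ s, ρ (t + 1 + s) ≤ ρ (t + 1) := by
    intro s
    induction s with
    | zero => exact le_rfl
    | succ s ih =>
      have : ρ (t + 1 + s) < 1 := lt_of_le_of_lt ih (h1.trans h0)
      exact (hmono _ this).trans ih
  have h3 : ρ (t + n * k) = ρ t := by
    simp only [hρ]
    rw [div_eq_div_iff (hSpos _).ne' (hSpos _).ne']
    exact O.R_per i j l r t
  have hnk : 1 ≤ n * k := Nat.mul_pos O.n_pos O.k_pos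
  have h4 := h2 (n * k - 1)
  rw [show t + 1 + (n * k - 1) = t + n * k by omega, h3] at h4
  exact absurd (lt_of_le_of_lt h4 h1) (lt_irrefl _)

lemma Q_eq {i j l r : ℕ} (hij : ¬ i ≡ j [MOD n]) (hlr : ¬ l ≡ r [MOD n])
    (hil : ¬ i ≡ l [MOD n]) (hjr : ¬ j ≡ r [MOD n]) (t : ℕ) :
    O.Q i j l r t = O.Q i l j r t :=
  le_antisymm (not_lt.1 (O.no_strict hil hjr hij hlr t)) (not_lt.1 (O.no_strict hij hlr hil hjr t))

lemma w_eq {i j l r : ℕ} (hij : ¬ i ≡ j [MOD n]) (hlr : ¬ l ≡ r [MOD n])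
    (hil : ¬ i ≡ l [MOD n]) (hjr : ¬ j ≡ r [MOD n]) (t : ℕ) (hm : 2 ≤ O.m t) :
    O.w i j t * O.w l r t = O.w i l t * O.w j r t := by
  have h1 := O.Q_eq hij hlr hil hjr t
  have h2 := O.Q_sq i j l r t
  have h3 := O.Q_sq i l j r t
  rw [h1, h3] at h2
  exact (pow_left_inj₀ zero_le zero_le (by omega)).1 h2.symm

/-- the valuation of the cross-ratio is constant in time -/
lemma ratio_const {i j l r : ℕ} (hij : ¬ i ≡ j [MOD n]) (hlr : ¬ l ≡ r [MOD n])
    (hil : ¬ i ≡ l [MOD n]) (hjr : ¬ j ≡ r [MOD n]) (t : ℕ) :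
    O.R i j l r t * O.R i l j r 0 = O.R i j l r 0 * O.R i l j r t := by
  induction t with
  | zero => rfl
  | succ t ih =>
    rw [R_succ, R_succ, O.Q_eq hij hlr hil hjr t]
    calc v (O.D t) ^ 2 * O.Q i l j r t * O.R i j l r t * O.R i l j r 0
        = v (O.D t) ^ 2 * O.Q i l j r t * (O.R i j l r t * O.R i l j r 0) := by
          ac_rfl
      _ = _ := by rw [ih]; ac_rfl

/-- comparison of products does not depend on time -/
lemma lt_iff {i j l r : ℕ} (hil : ¬ i ≡ l [MOD n]) (hjr : ¬ j ≡ r [MOD n]) (t : ℕ) :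
    O.R i j l r t < O.R i l j r t ↔ O.R i j l r 0 < O.R i l j r 0 := by
  by_cases hij : i ≡ j [MOD n]
  · have h0 : ∀ s, O.R i j l r s = 0 := by
      intro s; unfold R; rw [(O.b_eq_zero i j s).2 hij, zero_mul, map_zero]
    rw [h0, h0]
    exact ⟨fun _ => O.R_pos hil hjr 0, fun _ => O.R_pos hil hjr t⟩
  by_cases hlr : l ≡ r [MOD n]
  · have h0 : ∀ s, O.R i j l r s = 0 := by
      intro s; unfold R; rw [(O.b_eq_zero l r s).2 hlr, mul_zero, map_zero]
    rw [h0, h0]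
    exact ⟨fun _ => O.R_pos hil hjr 0, fun _ => O.R_pos hil hjr t⟩
  have h1 := O.ratio_const hij hlr hil hjr t
  have p1 := O.R_pos hil hjr 0
  have p2 := O.R_pos hil hjr t
  constructor
  · intro h
    have h2 : O.R i j l r 0 * O.R i l j r t < O.R i l j r 0 * O.R i l j r t := by
      rw [← h1, mul_comm (O.R i l j r 0)]
      exact mul_lt_mul_of_pos_right h p1
    exact lt_of_mul_lt_mul_right h2 zero_le
  · intro h
    have h2 : O.R i j l r t * O.R i l j r 0 < O.R i l j r t * O.R i l j r 0 := by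
      rw [h1, mul_comm (O.R i l j r t)]
      exact mul_lt_mul_of_pos_right h p2
    exact lt_of_mul_lt_mul_right h2 zero_le

end Orb

end Pool.Agent.H504E
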