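import Pool.Agent.H504E.Sub

set_option autoImplicit false
set_option linter.unusedSectionVars false
set_option linter.unusedVariables false

open Finset Pool.Agent.H504R2 Pool.Agent.H504D
open scoped WithZero Classical

namespace Pool.Agent.H504E

variable {K : Type} [Field K] {v : Valuation K ℤᵐ⁰} {p q k n : ℕ}

/-- the two points are close to each other and far from the exceptional set -/
def thin (v : Valuation K ℤᵐ⁰) (a : K) (x y : Fin 2 → K) : Prop := v (br x y) ^ 2 < wt v a x y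

lemma thin_ne {a : K} {x y : Fin 2 → K} (h : thin v a x y) : x 1 ≠ 0 ∧ y 1 ≠ 0 := by
  unfold thin wt W3 br at h
  constructor
  · intro h0
    rw [h0] at h
    simp at h
  · intro h0
    rw [h0] at h
    simp at h

lemma wt_pos_of {a : K} {x w : Fin 2 → K} (hx1 : x 1 ≠ 0) (hx : x 0 ≠ 0 ∨ a ≠ 0) (hw : w ≠ 0) :
    0 < wt v a x w := by
  by_contra hcon
  rw [not_lt, le_zero_iff] at hcon
  have h0 := wt_ge0 (v := v) a x w
  have h1 := wt_ge1 (v := v) a x w
  have h2 := wt_ge2 (v := v) a x w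
  rw [hcon, le_zero_iff] at h0 h1 h2
  have h1' : x 1 * w 0 = 0 := (Valuation.zero_iff v).1 (eq_zero_of_pow_eq_zero h1)
  have hw0 : w 0 = 0 := (mul_eq_zero.1 h1').resolve_left hx1
  have hw1 : w 1 ≠ 0 := by
    intro hw1; apply hw; ext i; fin_cases i
    · exact hw0
    · exact hw1
  rcases hx with hx | hx
  · have h0' : x 0 * w 1 = 0 := (Valuation.zero_iff v).1 (eq_zero_of_pow_eq_zero h0)
    exact (mul_ne_zero hx hw1) h0'
  · have h2' : a * (x 1 * w 1) ^ 2 = 0 := (Valuation.zero_iff v).1 h2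
    exact (mul_ne_zero hx (pow_ne_zero _ (mul_ne_zero hx1 hw1))) h2'

lemma thin_or {a : K} {x y : Fin 2 → K} (h : thin v a x y) : (x 0 ≠ 0 ∨ a ≠ 0) ∧ (y 0 ≠ 0 ∨ a ≠ 0) := by
  by_cases ha : a = 0
  · subst ha
    unfold thin wt W3 br at h
    constructor
    · left
      intro h0
      rw [h0] at h
      simp at h
    · left
      intro h0
      rw [h0] at h
      simp at h
  · exact ⟨Or.inr ha, Or.inr ha⟩

lemma hh_ne (hv : IsPlace v p q) (hp : p.Prime) (hq : ∃ f, q = p ^ f) {m : ℕ} {a : K}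
    (hm : Adm p q m a) {x w : Fin 2 → K} (hx1 : x 1 ≠ 0) (hx : x 0 ≠ 0 ∨ a ≠ 0) (hw : w ≠ 0) :
    hh m a x w ≠ 0 := by
  intro h0
  have h1 := v_hh hv hp hq hm x w
  rw [h0, map_zero, zero_pow two_ne_zero] at h1
  exact (pow_pos (wt_pos_of hx1 hx hw) _).ne h1

/-- transport of the cofactor along thin pairs -/
lemma thin_hh (hv : IsPlace v p q) (hp : p.Prime) (hq : ∃ f, q = p ^ f) {m : ℕ} {a : K}
    (hm : Adm p q m a) {x y : Fin 2 → K} (h : thin v a x y) {w : Fin 2 → K} (hw : w ≠ 0) :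
    Near v (hh m a x w) ((x 1 / y 1) ^ (m - 1) * hh m a y w) := by
  obtain ⟨hx1, hy1⟩ := thin_ne h
  obtain ⟨hxo, hyo⟩ := thin_or h
  obtain ⟨m', hm'⟩ : ∃ m', m = m' + 1 := ⟨m - 1, by have := hm.pos; omega⟩
  -- both sides multiplied by `y 1 ^ (m - 1)`
  have e1 : y 1 ^ m' * hh m a x w = kh (a * (x 1 * y 1 * w 1) ^ 2) ((x 0 * y 1) * w 1) (x 1 * y 1 * w 0) m := by
    unfold hh
    rw [hm', ← kh_smul]
    congr 1 <;> ring
  have e2 : x 1 ^ m' * hh m a y w = kh (a * (x 1 * y 1 * w 1) ^ 2) ((x 1 * y 0) * w 1) (x 1 * y 1 * w 0) m := by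
    unfold hh
    rw [hm', ← kh_smul]
    congr 1 <;> ring
  have hyw : hh m a y w ≠ 0 := hh_ne hv hp hq hm hy1 hyo hw
  have key : Near v (y 1 ^ m' * hh m a x w) (x 1 ^ m' * hh m a y w) := by
    by_cases hw1 : w 1 = 0
    · apply Near.of_eq
      · rw [e1, e2, hw1]; simp only [mul_zero]
      · exact mul_ne_zero (pow_ne_zero _ hx1) hyw
    · rw [e1, e2]
      set B := a * (x 1 * y 1 * w 1) ^ 2 with hB
      set P := (x 0 * y 1) * w 1 with hP
      set Q := (x 1 * y 0) * w 1 with hQ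
      set Z := x 1 * y 1 * w 0 with hZ
      have hvw : 0 < v (w 1) ^ 2 := pow_pos (zero_lt_iff.2 ((Valuation.ne_zero_iff v).2 hw1)) 2
      -- the common weight
      have hthin : v (P - Q) ^ 2 < max (max (v P ^ 2) (v Q ^ 2)) (v B) := by
        unfold thin wt W3 br at h
        have h1 : v (P - Q) ^ 2 = v (x 0 * y 1 - x 1 * y 0) ^ 2 * v (w 1) ^ 2 := by
          rw [hP, hQ, ← mul_pow, ← map_mul]; congr 2; ring
        have h2 : max (max (v P ^ 2) (v Q ^ 2)) (v B) =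
            max (max (v (x 0 * y 1) ^ 2) (v (x 1 * y 0) ^ 2)) (v (a * (x 1 * y 1) ^ 2)) * v (w 1) ^ 2 := by
          have e3 : v P ^ 2 = v (w 1) ^ 2 * v (x 0 * y 1) ^ 2 := by
            rw [hP, ← mul_pow, ← map_mul]; congr 2; ring
          have e4 : v Q ^ 2 = v (w 1) ^ 2 * v (x 1 * y 0) ^ 2 := by
            rw [hQ, ← mul_pow, ← map_mul]; congr 2; ring
          have e5 : v B = v (w 1) ^ 2 * v (a * (x 1 * y 1) ^ 2) := by
            rw [hB, ← map_pow, ← map_mul]; congr 1; ring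
          rw [e3, e4, e5, ← mul_max, ← mul_max, mul_comm]
        rw [h1, h2]
        exact mul_lt_mul_of_pos_right h hvw
      have hPQ : max (v P ^ 2) (v B) = max (v Q ^ 2) (v B) ∧ v (P - Q) ^ 2 < max (v Q ^ 2) (v B) := by
        rcases lt_trichotomy (v P) (v Q) with hlt | heq | hgt
        · have h1 : v (P - Q) = v Q := Valuation.map_sub_eq_of_lt_right _ hlt
          have hlt2 : v P ^ 2 < v Q ^ 2 := pow_lt_pow_left₀ hlt zero_le two_ne_zero
          rw [h1, max_eq_right hlt2.le] at hthin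
          have h2 : v Q ^ 2 < v B := by
            rcases lt_max_iff.1 hthin with h | h
            · exact absurd h (lt_irrefl _)
            · exact h
          rw [max_eq_right (hlt2.trans h2).le, max_eq_right h2.le, h1]
          exact ⟨rfl, h2⟩
        · rw [heq, max_self] at hthin
          rw [heq]
          exact ⟨rfl, hthin⟩
        · have h1 : v (P - Q) = v P := Valuation.map_sub_eq_of_lt_left _ hgt
          have hlt2 : v Q ^ 2 < v P ^ 2 := pow_lt_pow_left₀ hgt zero_le two_ne_zero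
          rw [h1, max_eq_left hlt2.le] at hthin
          have h2 : v P ^ 2 < v B := by
            rcases lt_max_iff.1 hthin with h | h
            · exact absurd h (lt_irrefl _)
            · exact h
          rw [max_eq_right h2.le, max_eq_right (hlt2.trans h2).le, h1]
          exact ⟨rfl, h2⟩
      have hadm : Adm p q m B := adm_smul hm _
      have hkQ := v_kh hv hp hq hadm Q Z
      have hMQ : W3 v B Q Z = max (max (v Q ^ 2) (v B)) (v Z ^ 2) := by
        unfold W3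
        rw [max_assoc, max_assoc, max_comm (v Z ^ 2)]
      set M := W3 v B Q Z with hM
      have hMpos : 0 < M := by
        rw [hMQ]
        exact lt_of_le_of_lt zero_le (lt_of_lt_of_le hPQ.2 (le_max_left _ _))
      have hlt : v (P - Q) ^ 2 < M := by
        rw [hMQ]; exact lt_of_lt_of_le hPQ.2 (le_max_left _ _)
      have hPM : v P ^ 2 ≤ M := by
        rw [hMQ, ← hPQ.1]; exact (le_max_left _ _).trans (le_max_left _ _)
      have hQM : v Q ^ 2 ≤ M := by
        rw [hMQ]; exact (le_max_left _ _).trans (le_max_left _ _)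
      have hBM : v B ≤ M := by
        rw [hMQ]; exact (le_max_right _ _).trans (le_max_left _ _)
      have hZM : v Z ^ 2 ≤ M := by
        rw [hMQ]; exact le_max_right _ _
      have h1 := kh_sub_lt hv hPM hQM hZM hBM hMpos hlt m'
      rw [hm'] at hkQ ⊢
      rw [Nat.add_sub_cancel] at hkQ
      rw [← hkQ] at h1
      exact lt_of_pow_lt_pow_left₀ 2 zero_le h1
  have h2 := key.mul_left (inv_ne_zero (pow_ne_zero m' hy1))
  have hm1 : m - 1 = m' := by omega
  rw [hm1]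
  convert h2 using 1
  · field_simp
  · rw [div_pow]; field_simp

namespace Orb

variable (O : Orb v p q k n)

lemma pt_ne (i t : ℕ) : O.pt i t ≠ 0 := O.X_ne _

/-- stage `t` is bad at level `e` -/
def Bad (t e : ℕ) : Prop := 2 ≤ O.m t ∧ ∃ i j, i ≡ j [MOD e] ∧ ¬ i ≡ j [MOD n] ∧ v (O.b i j t) ^ 2 = O.w i j t

/-- level `e` is good, formulated with natural numbers -/
def GoodN (e : ℕ) : Prop := ∀ a b c d : ℕ, a ≡ b [MOD e] → ¬ a ≡ c [MOD e] → ¬ a ≡ d [MOD e] →
  ∀ t, O.R a b c d t < O.R a c b d t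

lemma bad_mono {t e e' : ℕ} (he : e ∣ e') (h : O.Bad t e') : O.Bad t e := by
  obtain ⟨h1, i, j, h2, h3, h4⟩ := h
  exact ⟨h1, i, j, h2.of_dvd he, h3, h4⟩

/-- the constancy lemma, thin case -/
lemma const_thin {a z t : ℕ} {P : ℕ → Prop}
    {i0 : ℕ} (hi0 : O.pt i0 t 1 ≠ 0 ∧ (O.pt i0 t 0 ≠ 0 ∨ O.a t ≠ 0))
    (hthin : ∀ i, P i → thin v (O.a t) (O.pt i t) (O.pt i0 t)) :
    ∃ c : K, c ≠ 0 ∧ ∀ i j, P i → P j →
      Near v (O.h i j t) (c * O.h i z t * O.h j z t) := by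
  have hm := O.adm t
  set x := O.pt i0 t with hx
  have hxx : hh (O.m t) (O.a t) x x ≠ 0 := hh_ne O.hv O.hp O.hq hm hi0.1 hi0.2 (O.pt_ne _ _)
  have hxz : hh (O.m t) (O.a t) x (O.pt z t) ≠ 0 := hh_ne O.hv O.hp O.hq hm hi0.1 hi0.2 (O.pt_ne _ _)
  refine ⟨hh (O.m t) (O.a t) x x / (hh (O.m t) (O.a t) x (O.pt z t)) ^ 2,
    div_ne_zero hxx (pow_ne_zero _ hxz), ?_⟩
  intro i j hi hj
  set li := (O.pt i t 1 / x 1) ^ (O.m t - 1) with hli
  set lj := (O.pt j t 1 / x 1) ^ (O.m t - 1) with hlj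
  have hi1 : li ≠ 0 := pow_ne_zero _ (div_ne_zero (thin_ne (hthin i hi)).1 hi0.1)
  have hj1 : lj ≠ 0 := pow_ne_zero _ (div_ne_zero (thin_ne (hthin j hj)).1 hi0.1)
  have e1 : Near v (O.h i j t) (li * hh (O.m t) (O.a t) x (O.pt j t)) :=
    thin_hh O.hv O.hp O.hq hm (hthin i hi) (O.pt_ne _ _)
  have e2 : Near v (hh (O.m t) (O.a t) (O.pt j t) x) (lj * hh (O.m t) (O.a t) x x) :=
    thin_hh O.hv O.hp O.hq hm (hthin j hj) (O.pt_ne _ _)
  rw [hh_comm] at e2
  have e3 : Near v (O.h i z t) (li * hh (O.m t) (O.a t) x (O.pt z t)) :=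
    thin_hh O.hv O.hp O.hq hm (hthin i hi) (O.pt_ne _ _)
  have e4 : Near v (O.h j z t) (lj * hh (O.m t) (O.a t) x (O.pt z t)) :=
    thin_hh O.hv O.hp O.hq hm (hthin j hj) (O.pt_ne _ _)
  have e5 : Near v (O.h i j t) (li * (lj * hh (O.m t) (O.a t) x x)) := e1.trans (e2.mul_left hi1)
  have e6 := (e3.mul e4).mul_left (div_ne_zero hxx (pow_ne_zero 2 hxz))
  have e7 : hh (O.m t) (O.a t) x x / (hh (O.m t) (O.a t) x (O.pt z t)) ^ 2 *
      (li * hh (O.m t) (O.a t) x (O.pt z t) *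
      (lj * hh (O.m t) (O.a t) x (O.pt z t))) = li * (lj * hh (O.m t) (O.a t) x x) := by
    field_simp
  rw [e7] at e6
  have e8 := e5.trans e6.symm
  convert e8 using 1
  ring

/-- the constancy lemma -/
theorem const_lemma {e e' : ℕ} (he : e ∣ e') (he' : e' ∣ n) (hG' : O.GoodN e') (t : ℕ)
    (hb : O.Bad t e → O.Bad t e') (a z : ℕ) (hz : ¬ z ≡ a [MOD e]) :
    ∃ c : K, c ≠ 0 ∧ ∀ i j, i ≡ a [MOD e] → j ≡ a [MOD e] → ¬ i ≡ j [MOD e'] →
      Near v (O.h i j t) (c * O.h i z t * O.h j z t) := by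
  by_cases hex : ∃ i j, i ≡ a [MOD e] ∧ j ≡ a [MOD e] ∧ ¬ i ≡ j [MOD e']
  swap
  · exact ⟨1, one_ne_zero, fun i j hi hj hij => absurd ⟨i, j, hi, hj, hij⟩ hex⟩
  have hma := O.adm t
  have hm1 := hma.pos
  rcases Nat.lt_or_ge (O.m t) 2 with hm | hm
  · -- the linear case
    have hm' : O.m t = 1 := by omega
    refine ⟨1, one_ne_zero, fun i j _ _ _ => ?_⟩
    unfold h hh
    rw [hm']
    simpa [kh] using Near.refl (v := v) (one_ne_zero (α := K))
  have hen : e ∣ n := he.trans he'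
  -- class all thin
  by_cases hthin : ∀ i j, i ≡ a [MOD e] → j ≡ a [MOD e] → ¬ i ≡ j [MOD n] → v (O.b i j t) ^ 2 < O.w i j t
  · -- reference point
    have hcoord : ∀ i, i ≡ a [MOD e] → O.pt i t 1 ≠ 0 ∧ (O.pt i t 0 ≠ 0 ∨ O.a t ≠ 0) := by
      intro i hi
      obtain ⟨i1, i2, h1, h2, h12⟩ := hex
      have h12' : ¬ i1 ≡ i2 [MOD n] := fun h => h12 (h.of_dvd he')
      by_cases h3 : i ≡ i1 [MOD n]
      · have h4 : ¬ i ≡ i2 [MOD n] := fun h => h12' (h3.symm.trans h)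
        have h5 : thin v (O.a t) (O.pt i t) (O.pt i2 t) := hthin i i2 hi h2 h4
        exact ⟨(thin_ne h5).1, (thin_or h5).1⟩
      · have h5 : thin v (O.a t) (O.pt i t) (O.pt i1 t) := hthin i i1 hi h1 h3
        exact ⟨(thin_ne h5).1, (thin_or h5).1⟩
    have hthin' : ∀ i, i ≡ a [MOD e] → thin v (O.a t) (O.pt i t) (O.pt a t) := by
      intro i hi
      by_cases h3 : i ≡ a [MOD n]
      · have h4 : br (O.pt i t) (O.pt a t) = 0 := (O.b_eq_zero i a t).2 h3
        unfold thin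
        rw [h4, map_zero, zero_pow two_ne_zero]
        exact wt_pos_of (hcoord i hi).1 (hcoord i hi).2 (O.pt_ne _ _)
      · exact hthin i a hi rfl h3
    obtain ⟨c, hc, hcc⟩ := O.const_thin (a := a) (z := z) (hcoord a rfl) hthin'
    exact ⟨c, hc, fun i j hi hj _ => hcc i j hi hj⟩
  · push Not at hthin
    obtain ⟨i1, j1, hi1, hj1, hij1, hle1⟩ := hthin
    have hbad : O.Bad t e := ⟨hm, i1, j1, hi1.trans hj1.symm, hij1, le_antisymm (O.v_b_le _ _ _) hle1⟩
    obtain ⟨-, ib, jb, hijb, hijn, hbe⟩ := hb hbad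
    -- pairs outside the bad class are thin
    have hout : ∀ i j, ¬ ib ≡ i [MOD e'] → ¬ ib ≡ j [MOD e'] → ¬ i ≡ j [MOD n] →
        thin v (O.a t) (O.pt i t) (O.pt j t) := by
      intro i j hi hj hij
      have h1 := hG' ib jb i j hijb hi hj t
      have hji : ¬ jb ≡ j [MOD e'] := fun h => hj (hijb.trans h)
      have h2 := O.w_eq (i := ib) (j := jb) (l := i) (r := j) hijn hij (fun h => hi (h.of_dvd he'))
        (fun h => hji (h.of_dvd he')) t hm
      unfold R at h1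
      rw [map_mul, map_mul] at h1
      have h1' := pow_lt_pow_left₀ h1 zero_le two_ne_zero
      rw [mul_pow, mul_pow, hbe] at h1'
      have h3 : O.w ib jb t * v (O.b i j t) ^ 2 < O.w ib jb t * O.w i j t := by
        rw [h2]
        exact lt_of_lt_of_le h1' (mul_le_mul' (O.v_b_le _ _ _) (O.v_b_le _ _ _))
      exact lt_of_mul_lt_mul_left h3 zero_le
    have hb0a : ib ≡ a [MOD e] := by
      by_contra hcon
      -- otherwise all pairs in the class are thin
      have h1 : ¬ ib ≡ i1 [MOD e'] := fun h => hcon ((h.of_dvd he).trans hi1)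
      have h2 : ¬ ib ≡ j1 [MOD e'] := fun h => hcon ((h.of_dvd he).trans hj1)
      exact absurd (hout i1 j1 h1 h2 hij1) (not_lt.2 hle1)
    have hzb : ¬ ib ≡ z [MOD e'] := fun h => hz ((h.of_dvd he).symm.trans hb0a)
    -- an index in the class but outside the bad subclass
    obtain ⟨i2, hi2, hi2b⟩ : ∃ i2, i2 ≡ a [MOD e] ∧ ¬ ib ≡ i2 [MOD e'] := by
      obtain ⟨i, j, h1, h2, h3⟩ := hex
      by_cases h4 : ib ≡ i [MOD e']
      · exact ⟨j, h2, fun h5 => h3 (h4.symm.trans h5)⟩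
      · exact ⟨i, h1, h4⟩
    have hzne : ∀ i, i ≡ a [MOD e] → ¬ i ≡ z [MOD n] := fun i hi h =>
      hz ((h.of_dvd hen).symm.trans hi)
    have hiz : ∀ i, i ≡ a [MOD e] → ¬ ib ≡ i [MOD e'] → thin v (O.a t) (O.pt i t) (O.pt z t) :=
      fun i hi hib => hout i z hib hzb (hzne i hi)
    set x := O.pt z t with hx
    have hx1 := (thin_ne (hiz i2 hi2 hi2b)).2
    have hxo := (thin_or (hiz i2 hi2 hi2b)).2
    have hxx : hh (O.m t) (O.a t) x x ≠ 0 := hh_ne O.hv O.hp O.hq hma hx1 hxo (O.pt_ne _ _)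
    refine ⟨(hh (O.m t) (O.a t) x x)⁻¹, inv_ne_zero hxx, ?_⟩
    -- the main statement for `i` outside the bad subclass
    have hmain : ∀ i j, i ≡ a [MOD e] → j ≡ a [MOD e] → ¬ ib ≡ i [MOD e'] →
        Near v (O.h i j t) ((hh (O.m t) (O.a t) x x)⁻¹ * O.h i z t * O.h j z t) := by
      intro i j hi hj hib
      set li := (O.pt i t 1 / x 1) ^ (O.m t - 1) with hli
      have hi1 : li ≠ 0 := pow_ne_zero _ (div_ne_zero (thin_ne (hiz i hi hib)).1 hx1)
      have e1 : Near v (O.h i j t) (li * hh (O.m t) (O.a t) x (O.pt j t)) :=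
        thin_hh O.hv O.hp O.hq hma (hiz i hi hib) (O.pt_ne _ _)
      have e2 : Near v (O.h i z t) (li * hh (O.m t) (O.a t) x x) :=
        thin_hh O.hv O.hp O.hq hma (hiz i hi hib) (O.pt_ne _ _)
      have e3 : O.h j z t = hh (O.m t) (O.a t) x (O.pt j t) := hh_comm _ _ _ _
      have e4 : O.h j z t ≠ 0 := O.h_ne (O.b_ne (hzne j hj) t)
      have e5 := ((e2.mul_left (inv_ne_zero hxx)).mul_right e4)
      have e6 : (hh (O.m t) (O.a t) x x)⁻¹ * (li * hh (O.m t) (O.a t) x x) * O.h j z t =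
          li * hh (O.m t) (O.a t) x (O.pt j t) := by
        rw [e3]; field_simp
      rw [e6] at e5
      exact e1.trans e5.symm
    intro i j hi hj hij
    by_cases hib : ib ≡ i [MOD e']
    · have hjb : ¬ ib ≡ j [MOD e'] := fun h => hij (hib.symm.trans h)
      have := hmain j i hj hi hjb
      rw [O.h_comm i j t] at this
      convert this using 1
      ring
    · exact hmain i j hi hj hib

/-- affine differences at time `t` -/
def G (i j z t : ℕ) : K := O.b i j t / (O.b i z t * O.b j z t)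

lemma G_succ {i j z : ℕ} (hi : ¬ i ≡ z [MOD n]) (hj : ¬ j ≡ z [MOD n]) (t : ℕ) :
    O.G i j z (t + 1) = (O.h i j t / (O.D t * (O.h i z t * O.h j z t))) * O.G i j z t := by
  unfold G
  rw [b_succ, b_succ, b_succ]
  have h1 := O.D_ne t
  have h2 := O.b_ne hi t
  have h3 := O.b_ne hj t
  have h4 := O.h_ne h2
  have h5 := O.h_ne h3
  field_simp

lemma G_ne {i j z : ℕ} (hij : ¬ i ≡ j [MOD n]) (hi : ¬ i ≡ z [MOD n]) (hj : ¬ j ≡ z [MOD n]) (t : ℕ) :
    O.G i j z t ≠ 0 :=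
  div_ne_zero (O.b_ne hij t) (mul_ne_zero (O.b_ne hi t) (O.b_ne hj t))

lemma G_add {i j l z : ℕ} (hi : ¬ i ≡ z [MOD n]) (hj : ¬ j ≡ z [MOD n]) (hl : ¬ l ≡ z [MOD n]) (t : ℕ) :
    O.G i j z t + O.G j l z t = O.G i l z t := by
  unfold G
  have h1 := O.b_ne hi t
  have h2 := O.b_ne hj t
  have h3 := O.b_ne hl t
  have h4 : O.b i j t * O.b l z t - O.b i l t * O.b j z t + O.b i z t * O.b j l t = 0 := plucker _ _ _ _
  field_simp
  linear_combination h4

lemma G_run {e e' : ℕ} (he : e ∣ e') (he' : e' ∣ n) (hG' : O.GoodN e')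
    (hb : ∀ t, O.Bad t e → O.Bad t e') (a z : ℕ) (hz : ¬ z ≡ a [MOD e]) (T : ℕ) :
    ∃ c : K, c ≠ 0 ∧ ∀ i j, i ≡ a [MOD e] → j ≡ a [MOD e] → ¬ i ≡ j [MOD e'] →
      Near v (O.G i j z T) (c * O.G i j z 0) := by
  have hen : e ∣ n := he.trans he'
  have hzne : ∀ i, i ≡ a [MOD e] → ¬ i ≡ z [MOD n] := fun i hi h =>
    hz ((h.of_dvd hen).symm.trans hi)
  induction T with
  | zero =>
    refine ⟨1, one_ne_zero, fun i j hi hj hij => ?_⟩
    rw [one_mul]
    exact Near.refl (O.G_ne (fun h => hij (h.of_dvd he')) (hzne i hi) (hzne j hj) 0)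
  | succ T ih =>
    obtain ⟨c, hc, hcc⟩ := ih
    obtain ⟨d, hd, hdd⟩ := O.const_lemma he he' hG' T (hb T) a z hz
    refine ⟨d / O.D T * c, mul_ne_zero (div_ne_zero hd (O.D_ne T)) hc, fun i j hi hj hij => ?_⟩
    rw [O.G_succ (hzne i hi) (hzne j hj)]
    have h1 := O.h_ne (O.b_ne (hzne i hi) T)
    have h2 := O.h_ne (O.b_ne (hzne j hj) T)
    have h3 := O.D_ne T
    have h4 : Near v (O.h i j T / (O.D T * (O.h i z T * O.h j z T))) (d / O.D T) := by
      have h5 := (hdd i j hi hj hij).mul_right (inv_ne_zero (mul_ne_zero h3 (mul_ne_zero h1 h2)))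
      convert h5 using 1 <;> field_simp
    have := h4.mul (hcc i j hi hj hij)
    convert this using 1
    ring

lemma pt_shift' (i s t : ℕ) : O.pt i (t + k * s) = O.pt (i + s) t := by
  unfold pt; congr 1; ring

lemma G_shift (i j z s t : ℕ) : O.G i j z (t + k * s) = O.G (i + s) (j + s) (z + s) t := by
  unfold G b
  rw [pt_shift', pt_shift', pt_shift']

lemma G_per (i j z t : ℕ) : O.G (i + n) (j + n) z t = O.G i j z t := by
  obtain ⟨ci, hci, hi⟩ := O.pt_per i t
  obtain ⟨cj, hcj, hj⟩ := O.pt_per j t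
  unfold G b
  rw [hi, hj]
  have e1 : br (ci • O.pt i t) (cj • O.pt j t) = ci * cj * br (O.pt i t) (O.pt j t) := br_smul _ _ _ _
  have e2 : br (ci • O.pt i t) (O.pt z t) = ci * br (O.pt i t) (O.pt z t) := by
    have := br_smul ci 1 (O.pt i t) (O.pt z t); rwa [one_smul, mul_one] at this
  have e3 : br (cj • O.pt j t) (O.pt z t) = cj * br (O.pt j t) (O.pt z t) := by
    have := br_smul cj 1 (O.pt j t) (O.pt z t); rwa [one_smul, mul_one] at this
  rw [e1, e2, e3, show ci * br (O.pt i t) (O.pt z t) * (cj * br (O.pt j t) (O.pt z t)) =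
    ci * cj * (br (O.pt i t) (O.pt z t) * br (O.pt j t) (O.pt z t)) by ring]
  rw [mul_div_mul_left _ _ (mul_ne_zero hci hcj)]

/-- change of the reference point -/
lemma G_change {e : ℕ} (hen : e ∣ n) (hG : O.GoodN e) {a z z' : ℕ} (hz : ¬ z ≡ a [MOD e])
    (hz' : ¬ z' ≡ a [MOD e]) :
    ∃ c : K, c ≠ 0 ∧ ∀ i j, i ≡ a [MOD e] → j ≡ a [MOD e] → ¬ i ≡ j [MOD n] →
      Near v (O.G i j z' 0) (c * O.G i j z 0) := by
  have hne : ∀ i, i ≡ a [MOD e] → ¬ i ≡ z [MOD n] := fun i hi h =>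
    hz ((h.of_dvd hen).symm.trans hi)
  have hne' : ∀ i, i ≡ a [MOD e] → ¬ i ≡ z' [MOD n] := fun i hi h =>
    hz' ((h.of_dvd hen).symm.trans hi)
  have h1 := O.b_ne (hne a rfl) 0
  have h2 := O.b_ne (hne' a rfl) 0
  have hN : ∀ i, i ≡ a [MOD e] → Near v (O.b i z 0 / O.b i z' 0) (O.b a z 0 / O.b a z' 0) := by
    intro i hi
    have h3 := O.b_ne (hne i hi) 0
    have h4 := O.b_ne (hne' i hi) 0
    have h5 := hG i a z z' hi (fun h => hz (h.symm.trans hi)) (fun h => hz' (h.symm.trans hi)) 0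
    have h6 : O.b i a 0 * O.b z z' 0 - O.b i z 0 * O.b a z' 0 + O.b i z' 0 * O.b a z 0 = 0 :=
      plucker _ _ _ _
    have h7 : Near v (O.b i z' 0 * O.b a z 0) (O.b i z 0 * O.b a z' 0) := by
      have h8 : O.b i z' 0 * O.b a z 0 - O.b i z 0 * O.b a z' 0 = - (O.b i a 0 * O.b z z' 0) := by
        linear_combination h6
      rw [Near, h8, Valuation.map_neg]
      exact h5
    have h9 := h7.symm.mul_right (inv_ne_zero (mul_ne_zero h4 h2))
    convert h9 using 1
    · field_simp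
    · field_simp
  refine ⟨(O.b a z 0 / O.b a z' 0) ^ 2, pow_ne_zero _ (div_ne_zero h1 h2), fun i j hi hj hij => ?_⟩
  have h3 := O.b_ne (hne i hi) 0
  have h4 := O.b_ne (hne' i hi) 0
  have h5 := O.b_ne (hne j hj) 0
  have h6 := O.b_ne (hne' j hj) 0
  have h7 := ((hN i hi).mul (hN j hj)).mul_right (O.G_ne hij (hne i hi) (hne j hj) 0)
  convert h7 using 1
  · unfold G; field_simp
  · ring

/-- The segment lemma. -/
theorem segment {e e' : ℕ} (he : e ∣ e') (he' : e' ∣ n) (hG : O.GoodN e) (hG' : O.GoodN e')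
    (hb : ∀ t, O.Bad t e → O.Bad t e') (he2 : 2 ≤ e) (hp : p.Prime) :
    ∃ E, e' ∣ e * (q - 1) * p ^ E := by
  have hn := O.n_pos
  have hen : e ∣ n := he.trans he'
  have hepos : 0 < e := by omega
  have he'pos : 0 < e' := Nat.pos_of_dvd_of_pos he' hn
  have h10 : ¬ (1 : ℕ) ≡ 0 [MOD e] := by
    intro h
    have := (Nat.modEq_zero_iff_dvd).1 h
    have := Nat.le_of_dvd one_pos this
    omega
  -- the class of `0` and the reference point `1`
  by_cases hee : e' ∣ e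
  · exact ⟨0, by simpa using hee.mul_right (q - 1)⟩
  have hzne : ∀ i, i ≡ 0 [MOD e] → ¬ i ≡ 1 [MOD n] := fun i hi h =>
    h10 ((h.of_dvd hen).symm.trans hi)
  have hnn : ∀ i j, ¬ i ≡ j [MOD e'] → ¬ i ≡ j [MOD n] := fun i j h h' => h (h'.of_dvd he')
  -- the shift by `e`
  obtain ⟨μ, hμ0, hμ⟩ : ∃ μ : K, μ ≠ 0 ∧ ∀ i j, i ≡ 0 [MOD e] → j ≡ 0 [MOD e] → ¬ i ≡ j [MOD e'] →
      Near v (O.G (i + e) (j + e) 1 0) (μ * O.G i j 1 0) := by
    obtain ⟨c, hc, hcc⟩ := O.G_run he he' hG' hb 0 1 h10 (k * e)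
    have h1e : ¬ 1 + e ≡ 0 [MOD e] := by
      intro h
      apply h10
      have h2 : 1 + e ≡ 1 [MOD e] := by
        show (1 + e) % e = 1 % e
        rw [Nat.add_mod_right]
      exact h2.symm.trans h
    obtain ⟨d, hd, hdd⟩ := O.G_change hen hG (a := 0) (z := 1 + e) (z' := 1) h1e h10
    refine ⟨d * c, mul_ne_zero hd hc, fun i j hi hj hij => ?_⟩
    have hie : i + e ≡ 0 [MOD e] := by
      have h2 : i + e ≡ i [MOD e] := by
        show (i + e) % e = i % e
        rw [Nat.add_mod_right]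
      exact h2.trans hi
    have hje : j + e ≡ 0 [MOD e] := by
      have h2 : j + e ≡ j [MOD e] := by
        show (j + e) % e = j % e
        rw [Nat.add_mod_right]
      exact h2.trans hj
    have hije : ¬ i + e ≡ j + e [MOD n] := fun h => hnn i j hij (Nat.ModEq.add_right_cancel' e h)
    have h1 := hcc i j hi hj hij
    have h2 := O.G_shift i j 1 e 0
    rw [zero_add] at h2
    rw [h2] at h1
    have h3 := hdd (i + e) (j + e) hie hje hije
    have h4 := h3.trans (h1.mul_left hd)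
    rwa [← mul_assoc] at h4
  -- iterates
  have hcl : ∀ i r, i ≡ 0 [MOD e] → i + r * e ≡ 0 [MOD e] := by
    intro i r hi
    have h2 : i + r * e ≡ i [MOD e] := by
      show (i + r * e) % e = i % e
      rw [Nat.add_mul_mod_self_right]
    exact h2.trans hi
  have hit : ∀ r i j, i ≡ 0 [MOD e] → j ≡ 0 [MOD e] → ¬ i ≡ j [MOD e'] →
      Near v (O.G (i + r * e) (j + r * e) 1 0) (μ ^ r * O.G i j 1 0) := by
    intro r i j hi hj hij
    induction r with
    | zero =>
      rw [zero_mul, add_zero, add_zero, pow_zero, one_mul]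
      exact Near.refl (O.G_ne (hnn i j hij) (hzne i hi) (hzne j hj) 0)
    | succ r ih =>
      have h1 := hμ (i + r * e) (j + r * e) (hcl i r hi) (hcl j r hj)
        (fun h => hij (Nat.ModEq.add_right_cancel' _ h))
      have h2 := h1.trans (ih.mul_left hμ0)
      rw [show i + (r + 1) * e = i + r * e + e by ring, show j + (r + 1) * e = j + r * e + e by ring,
        pow_succ', mul_assoc]
      exact h2
  -- `μ` is a unit
  have h0e : ¬ (0 : ℕ) ≡ e [MOD e'] := by
    intro h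
    exact hee ((Nat.modEq_zero_iff_dvd).1 h.symm)
  have hee0 : e ≡ 0 [MOD e] := by
    rw [Nat.modEq_zero_iff_dvd]
  have hvμ : v μ = 1 := by
    obtain ⟨s, hs⟩ := hen
    have h1 := hit s 0 e rfl hee0 h0e
    have h2 := O.G_per 0 e 1 0
    rw [show s * e = n by rw [hs, mul_comm], h2] at h1
    have h3 := h1.v_eq
    rw [map_mul, map_pow] at h3
    have h4 : v (O.G 0 e 1 0) ≠ 0 :=
      (Valuation.ne_zero_iff v).2 (O.G_ne (hnn 0 e h0e) (hzne 0 rfl) (hzne e hee0) 0)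
    have h5 : v μ ^ s = 1 := by
      have : v μ ^ s * v (O.G 0 e 1 0) = 1 * v (O.G 0 e 1 0) := by rw [one_mul]; exact h3.symm
      exact mul_right_cancel₀ h4 this
    have hs0 : s ≠ 0 := by
      rintro rfl
      rw [mul_zero] at hs; omega
    exact (pow_eq_one_iff_of_nonneg zero_le hs0).1 h5
  set s := e * (q - 1) with hs
  have hμq : Near v (μ ^ (q - 1)) 1 := by
    rw [Near, map_one]; exact O.hv.unit_pow μ hvμ
  have hμs : ∀ r, Near v (μ ^ ((q - 1) * r)) 1 := by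
    intro r
    rw [pow_mul]
    simpa using hμq.pow r
  have hsh : ∀ r i j, i ≡ 0 [MOD e] → j ≡ 0 [MOD e] → ¬ i ≡ j [MOD e'] →
      Near v (O.G (i + s * r) (j + s * r) 1 0) (O.G i j 1 0) := by
    intro r i j hi hj hij
    have h1 := hit ((q - 1) * r) i j hi hj hij
    have h2 := (hμs r).mul_right (O.G_ne (hnn i j hij) (hzne i hi) (hzne j hj) 0)
    rw [one_mul] at h2
    have h3 := h1.trans h2
    rw [show s * r = (q - 1) * r * e by rw [hs]; ring]
    exact h3
  -- the order of `s` modulo `e'`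
  set g := Nat.gcd s e' with hg
  have hgpos : 0 < g := Nat.gcd_pos_of_pos_right _ he'pos
  set o := e' / g with ho
  have hge : g * o = e' := Nat.mul_div_cancel' (Nat.gcd_dvd_right _ _)
  have hopos : 0 < o := Nat.pos_of_ne_zero (by rintro h; rw [h, mul_zero] at hge; omega)
  have hprime : ∀ ℓ, ℓ.Prime → ℓ ∣ o → ℓ = p := by
    intro ℓ hℓ hdvd
    by_contra hne
    obtain ⟨o', ho'⟩ := hdvd
    have ho'pos : 0 < o' := Nat.pos_of_ne_zero (by rintro h; rw [h, mul_zero] at ho'; omega)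
    set u := s * o' with hu
    have hul : e' ∣ u * ℓ := by
      have h1 : u * ℓ = s * o := by rw [hu, ho']; ring
      rw [h1, ← hge]
      exact Nat.mul_dvd_mul (Nat.gcd_dvd_left _ _) (dvd_refl o)
    have hun : ¬ e' ∣ u := by
      intro h
      have h1 : o ∣ (s / g) * o' := by
        have h2 : g * o ∣ g * ((s / g) * o') := by
          rw [hge, ← mul_assoc, Nat.mul_div_cancel' (Nat.gcd_dvd_left _ _)]
          exact h
        exact Nat.dvd_of_mul_dvd_mul_left hgpos h2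
      have hcop : Nat.Coprime o (s / g) := (Nat.coprime_div_gcd_div_gcd hgpos).symm
      have h3 : o ∣ o' := hcop.dvd_of_dvd_mul_left h1
      have h4 := Nat.le_of_dvd ho'pos h3
      have h5 := hℓ.two_le
      have : ℓ * o' ≤ o' := by rw [← ho']; exact h4
      nlinarith
    have hu0 : u ≡ 0 [MOD e] := by
      rw [Nat.modEq_zero_iff_dvd, hu, hs]
      exact Dvd.intro _ (by ring : e * ((q - 1) * o') = e * (q - 1) * o')
    have hy : ∀ r, u * r ≡ 0 [MOD e] := by
      intro r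
      rw [Nat.modEq_zero_iff_dvd] at hu0 ⊢
      exact hu0.mul_right r
    have h0u : ¬ 0 ≡ u [MOD e'] := fun h => hun ((Nat.modEq_zero_iff_dvd).1 h.symm)
    have hstep : ∀ r, Near v (O.G (u * r) (u * (r + 1)) 1 0) (O.G 0 u 1 0) := by
      intro r
      have h1 := hsh (o' * r) 0 u rfl hu0 h0u
      have h2 : s * (o' * r) = u * r := by rw [hu]; ring
      rw [h2, zero_add] at h1
      rw [show u * (r + 1) = u + u * r by ring]
      exact h1
    have htel : ∀ R, ∑ r ∈ range R, O.G (u * r) (u * (r + 1)) 1 0 = O.G 0 (u * R) 1 0 := by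
      intro R
      induction R with
      | zero =>
        rw [Finset.sum_range_zero, mul_zero]
        unfold G
        rw [(O.b_eq_zero 0 0 0).2 rfl, zero_div]
      | succ R ih =>
        rw [Finset.sum_range_succ, ih]
        exact O.G_add (hzne 0 rfl) (hzne _ (hy R)) (hzne _ (hy (R + 1))) 0
    have hG0 : O.G 0 u 1 0 ≠ 0 := O.G_ne (hnn 0 u h0u) (hzne 0 rfl) (hzne u hu0) 0
    have hsum := Near.sum (v := v) (range ℓ) (fun r => O.G (u * r) (u * (r + 1)) 1 0) hG0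
      (fun r _ => hstep r)
    rw [htel, card_range] at hsum
    have hvl : v ((ℓ : ℕ) : K) = 1 := O.hv.v_coprime ((Nat.coprime_primes hℓ hp).2 hne)
    have hvG : v (O.G 0 (u * ℓ) 1 0) = v (O.G 0 u 1 0) := by
      have h1 : v ((ℓ : K) * O.G 0 u 1 0) = v (O.G 0 u 1 0) := by rw [map_mul, hvl, one_mul]
      have h2 : O.G 0 (u * ℓ) 1 0 = (O.G 0 (u * ℓ) 1 0 - (ℓ : K) * O.G 0 u 1 0) + (ℓ : K) * O.G 0 u 1 0 := by
        ring
      rw [h2, Valuation.map_add_eq_of_lt_right _ (by rw [h1]; exact hsum), h1]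
    -- contradiction with goodness
    have h0ul : 0 ≡ u * ℓ [MOD e'] := ((Nat.modEq_zero_iff_dvd).2 hul).symm
    have h01 : ¬ 0 ≡ 1 [MOD e'] := fun h => h10 (h.of_dvd he).symm
    have h1 := hG' 0 (u * ℓ) u 1 h0ul h0u h01 0
    unfold R at h1
    rw [map_mul, map_mul] at h1
    have h2 : v (O.G 0 (u * ℓ) 1 0) < v (O.G 0 u 1 0) := by
      unfold G
      rw [map_div₀, map_div₀, map_mul, map_mul]
      have p1 : 0 < v (O.b 0 1 0) := zero_lt_iff.2 ((Valuation.ne_zero_iff v).2 (O.b_ne (hzne 0 rfl) 0))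
      have p2 : 0 < v (O.b u 1 0) := zero_lt_iff.2 ((Valuation.ne_zero_iff v).2 (O.b_ne (hzne u hu0) 0))
      have p3 : 0 < v (O.b (u * ℓ) 1 0) :=
        zero_lt_iff.2 ((Valuation.ne_zero_iff v).2 (O.b_ne (hzne _ (hy ℓ)) 0))
      rw [div_lt_div_iff₀ (mul_pos p1 p3) (mul_pos p1 p2)]
      calc v (O.b 0 (u * ℓ) 0) * (v (O.b 0 1 0) * v (O.b u 1 0))
          = v (O.b 0 1 0) * (v (O.b 0 (u * ℓ) 0) * v (O.b u 1 0)) := by ac_rfl
        _ < v (O.b 0 1 0) * (v (O.b 0 u 0) * v (O.b (u * ℓ) 1 0)) := mul_lt_mul_of_pos_left h1 p1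
        _ = v (O.b 0 u 0) * (v (O.b 0 1 0) * v (O.b (u * ℓ) 1 0)) := by ac_rfl
    exact absurd hvG h2.ne
  -- conclusion
  have hopow : ∃ E, o ∣ p ^ E := by
    have h1 := Nat.eq_prime_pow_of_unique_prime_dvd hopos.ne' (fun {d} hd hdo => hprime d hd hdo)
    exact ⟨o.primeFactorsList.length, by rw [← h1]⟩
  obtain ⟨E, hE⟩ := hopow
  refine ⟨E, ?_⟩
  rw [← hge]
  exact Nat.mul_dvd_mul (Nat.gcd_dvd_left _ _) hE

end Orb

end Pool.Agent.H504E
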