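import Pool.Agent.H504E.BChain

set_option autoImplicit false
set_option linter.unusedSectionVars false
set_option linter.unusedVariables false

open Finset Pool.Agent.H504R2 Pool.Agent.H504D
open scoped WithZero

namespace Pool.Agent.H504E

variable {K : Type} [Field K] {N : ℕ}

lemma dickson_degree_aux (a : K) (m : ℕ) :
    (Polynomial.dickson 1 a (m + 1)).degree = (m + 1 : ℕ) ∧ (Polynomial.dickson 1 a m).degree ≤ (m : ℕ) := by
  induction m with
  | zero =>
    refine ⟨?_, ?_⟩
    · rw [zero_add, Polynomial.dickson_one, Polynomial.degree_X]; rfl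
    · rw [Polynomial.dickson_zero]
      have : ((3 : Polynomial K) - ((1 : ℕ) : Polynomial K)) = Polynomial.C ((3 : K) - 1) := by
        rw [map_sub, map_one, map_ofNat]; norm_num
      rw [this]
      exact Polynomial.degree_C_le
  | succ m ih =>
    refine ⟨?_, ih.1.le⟩
    rw [Polynomial.dickson_add_two]
    have h1 : (Polynomial.X * Polynomial.dickson 1 a (m + 1)).degree = ((m + 1 + 1 : ℕ) : WithBot ℕ) := by
      rw [Polynomial.degree_mul, ih.1, Polynomial.degree_X]
      norm_cast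
      ring
    rw [Polynomial.degree_sub_eq_left_of_degree_lt, h1]
    rw [h1]
    calc (Polynomial.C a * Polynomial.dickson 1 a m).degree ≤ 0 + (m : ℕ) := by
          rw [Polynomial.degree_mul]
          exact add_le_add Polynomial.degree_C_le ih.2
      _ < ((m + 1 + 1 : ℕ) : WithBot ℕ) := by
          rw [zero_add]
          exact_mod_cast (by omega : m < m + 1 + 1)

lemma Exc.natDegree {D d : ℕ} {F : Polynomial K} (h : Exc D d F) : F.natDegree = d := by
  induction h with
  | affine a b ha => exact Polynomial.natDegree_linear ha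
  | power m hm h => exact Polynomial.natDegree_X_pow m
  | dickson m a hm h =>
    obtain ⟨m', rfl⟩ : ∃ m', m = m' + 1 := ⟨m - 1, by omega⟩
    exact Polynomial.natDegree_eq_of_degree_eq_some (dickson_degree_aux a m').1
  | comp d e F G hF hG ihF ihG => rw [Polynomial.natDegree_comp, ihF, ihG]

lemma Exc.tame' {D d : ℕ} {v : Valuation K ℤᵐ⁰} {p f : ℕ} (g : GoodPlace D d v p f) {F : Polynomial K}
    (h : Exc D d F) : Nonempty (Tame v (fun x => F.eval x)) :=
  h.tame g.hv g.hp g.hf1 g.hf g.cop g.prim (dvd_refl d)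

/-- the first two coordinates -/
def two (x : Fin (N + 2) → K) : Fin 2 → K := ![x 0, x 1]

lemma two_smul' (s : K) (x : Fin (N + 2) → K) : two (s • x) = s • two x := by
  unfold two
  ext i; fin_cases i <;> simp

/-- a skew product over an exceptional map of the line with exceptional fibres -/
structure Skew (D d : ℕ) (F : (Fin (N + 2) → K) → Fin (N + 2) → K) : Prop where
  smul : ∀ (s : K) (x : Fin (N + 2) → K), F (s • x) = s ^ d • F x
  pre : ∀ i : ℕ, 1 ≤ i → ∀ x y : Fin (N + 2) → K, (∀ j : Fin (N + 2), (j : ℕ) ≤ i → x j = y j) →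
    ∀ j : Fin (N + 2), (j : ℕ) ≤ i → F x j = F y j
  base : ∃ G, BChain D d G ∧ ∀ x, two (F x) = G (two x)
  fib : ∀ i : Fin (N + 2), 2 ≤ (i : ℕ) → ∀ x, ∃ P : Polynomial K, Exc D d P ∧
    ∀ u, F (Function.update x i u) i = P.eval u

/-- proportionality of prefixes -/
def PR (i : ℕ) (x y : Fin (N + 2) → K) : Prop := ∃ s : K, s ≠ 0 ∧ ∀ j : Fin (N + 2), (j : ℕ) ≤ i → x j = s * y j

lemma PR.refl (i : ℕ) (x : Fin (N + 2) → K) : PR i x x := ⟨1, one_ne_zero, fun j _ => (one_mul _).symm⟩

lemma PR.symm {i : ℕ} {x y : Fin (N + 2) → K} (h : PR i x y) : PR i y x := by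
  obtain ⟨s, hs, h⟩ := h
  refine ⟨s⁻¹, inv_ne_zero hs, fun j hj => ?_⟩
  rw [h j hj, ← mul_assoc, inv_mul_cancel₀ hs, one_mul]

lemma PR.trans {i : ℕ} {x y z : Fin (N + 2) → K} (h : PR i x y) (h' : PR i y z) : PR i x z := by
  obtain ⟨s, hs, h⟩ := h
  obtain ⟨t, ht, h'⟩ := h'
  exact ⟨s * t, mul_ne_zero hs ht, fun j hj => by rw [h j hj, h' j hj, mul_assoc]⟩

lemma PR.mono {i i' : ℕ} (hi : i ≤ i') {x y : Fin (N + 2) → K} (h : PR i' x y) : PR i x y := by
  obtain ⟨s, hs, h⟩ := h
  exact ⟨s, hs, fun j hj => h j (hj.trans hi)⟩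

/-- zero prefix -/
def ZP (i : ℕ) (x : Fin (N + 2) → K) : Prop := ∀ j : Fin (N + 2), (j : ℕ) ≤ i → x j = 0

lemma ZP.PR {i : ℕ} {x y : Fin (N + 2) → K} (hx : ZP i x) (hy : ZP i y) : PR i x y :=
  ⟨1, one_ne_zero, fun j hj => by rw [hx j hj, hy j hj, mul_zero]⟩

lemma PR.zp {i : ℕ} {x y : Fin (N + 2) → K} (h : PR i x y) (hy : ZP i y) : ZP i x := by
  obtain ⟨s, hs, h⟩ := h
  intro j hj
  rw [h j hj, hy j hj, mul_zero]

lemma two_eq_zero_iff {x : Fin (N + 2) → K} : two x = 0 ↔ ZP 1 x := by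
  constructor
  · intro h j hj
    have h0 := congrFun h 0
    have h1 := congrFun h 1
    have hj' : j = 0 ∨ j = 1 := by
      rcases Nat.lt_or_ge (j : ℕ) 1 with h | h
      · left; exact Fin.ext (by rw [Fin.val_zero]; omega)
      · right; exact Fin.ext (by rw [Fin.val_one]; omega)
    rcases hj' with rfl | rfl
    · exact h0
    · exact h1
  · intro h
    ext j
    fin_cases j
    · exact h 0 (by simp)
    · exact h 1 (by simp)

lemma PR_one_iff {x y : Fin (N + 2) → K} (hx : two x ≠ 0) (hy : two y ≠ 0) :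
    PR 1 x y ↔ br (two x) (two y) = 0 := by
  rw [br_eq_zero_iff hx hy]
  constructor
  · rintro ⟨s, hs, h⟩
    refine ⟨s, hs, ?_⟩
    ext j
    fin_cases j
    · exact h 0 (by simp)
    · exact h 1 (by simp)
  · rintro ⟨s, hs, h⟩
    refine ⟨s, hs, fun j hj => ?_⟩
    have h0 := congrFun h 0
    have h1 := congrFun h 1
    have hj' : j = 0 ∨ j = 1 := by
      rcases Nat.lt_or_ge (j : ℕ) 1 with h | h
      · left; exact Fin.ext (by rw [Fin.val_zero]; omega)
      · right; exact Fin.ext (by rw [Fin.val_one]; omega)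
    rcases hj' with rfl | rfl
    · exact h0
    · exact h1

namespace Skew

variable {D d : ℕ} {F : (Fin (N + 2) → K) → Fin (N + 2) → K} (h : Skew D d F)

include h

lemma iter_smul (n : ℕ) (s : K) (x : Fin (N + 2) → K) : F^[n] (s • x) = s ^ (d ^ n) • F^[n] x := by
  induction n with
  | zero => simp
  | succ n ih =>
    rw [Function.iterate_succ_apply', Function.iterate_succ_apply', ih, h.smul, ← pow_mul, ← pow_succ]

lemma iter_pre (n : ℕ) {i : ℕ} (hi : 1 ≤ i) {x y : Fin (N + 2) → K}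
    (hxy : ∀ j : Fin (N + 2), (j : ℕ) ≤ i → x j = y j) :
    ∀ j : Fin (N + 2), (j : ℕ) ≤ i → F^[n] x j = F^[n] y j := by
  induction n with
  | zero => exact hxy
  | succ n ih =>
    rw [Function.iterate_succ_apply', Function.iterate_succ_apply']
    exact h.pre i hi _ _ ih

lemma map_PR {i : ℕ} (hi : 1 ≤ i) {x y : Fin (N + 2) → K} (hxy : PR i x y) : PR i (F x) (F y) := by
  obtain ⟨s, hs, hxy⟩ := hxy
  refine ⟨s ^ d, pow_ne_zero _ hs, fun j hj => ?_⟩
  have h1 := h.pre i hi x (s • y) (fun j hj => by rw [hxy j hj]; rfl) j hj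
  rw [h1, h.smul]; rfl

lemma iter_PR (n : ℕ) {i : ℕ} (hi : 1 ≤ i) {x y : Fin (N + 2) → K} (hxy : PR i x y) :
    PR i (F^[n] x) (F^[n] y) := by
  induction n with
  | zero => exact hxy
  | succ n ih =>
    rw [Function.iterate_succ_apply', Function.iterate_succ_apply']
    exact h.map_PR hi ih

lemma map_zp (hd : d ≠ 0) {i : ℕ} (hi : 1 ≤ i) {x : Fin (N + 2) → K} (hx : ZP i x) : ZP i (F x) := by
  intro j hj
  have h1 := h.pre i hi x ((0 : K) • x) (fun j hj => by rw [hx j hj]; simp) j hj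
  rw [h1, h.smul, zero_pow hd, zero_smul]; rfl

lemma iter_two (G : (Fin 2 → K) → Fin 2 → K) (hG : ∀ x, two (F x) = G (two x)) (n : ℕ) (x : Fin (N + 2) → K) :
    two (F^[n] x) = G^[n] (two x) := by
  induction n with
  | zero => rfl
  | succ n ih => rw [Function.iterate_succ_apply', Function.iterate_succ_apply', hG, ih]

/-- fibre polynomials of iterates -/
lemma iter_fib (n : ℕ) {i : Fin (N + 2)} (hi : 2 ≤ (i : ℕ)) (x : Fin (N + 2) → K) :
    ∃ P : Polynomial K, P.natDegree = d ^ n ∧ (∀ u, F^[n] (Function.update x i u) i = P.eval u) ∧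
      ∀ {v : Valuation K ℤᵐ⁰} {p f : ℕ} (_ : GoodPlace D d v p f), Nonempty (Tame v (fun u => P.eval u)) := by
  induction n with
  | zero =>
    refine ⟨Polynomial.X, by simp, fun u => by simp, ?_⟩
    intro v p f _
    have : (fun u : K => (Polynomial.X : Polynomial K).eval u) = fun u => (1 : K) * u + 0 := by
      funext u; simp
    rw [this]
    exact ⟨Tame.affine 1 0 one_ne_zero⟩
  | succ n ih =>
    obtain ⟨Q, hQd, hQ, hQt⟩ := ih
    obtain ⟨P, hP, hPe⟩ := h.fib i hi (F^[n] x)
    refine ⟨P.comp Q, ?_, ?_, ?_⟩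
    · rw [Polynomial.natDegree_comp, hQd, Exc.natDegree hP, pow_succ, mul_comm]
    · intro u
      rw [Polynomial.eval_comp, ← hQ, ← hPe, Function.iterate_succ_apply']
      apply h.pre i (by omega) _ _ _ i le_rfl
      intro j hj
      by_cases hji : j = i
      · subst hji; rw [Function.update_self]
      · rw [Function.update_of_ne hji]
        have hji' : (j : ℕ) ≤ (i : ℕ) - 1 := by
          have : (j : ℕ) ≠ i := fun h => hji (Fin.ext h)
          omega
        apply h.iter_pre n (i := (i : ℕ) - 1) (by omega) _ j hji'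
        intro l hl
        apply Function.update_of_ne
        rintro rfl
        omega
    · intro v p f g
      obtain ⟨T1⟩ := hQt g
      obtain ⟨T2⟩ := Exc.tame' g hP
      have : (fun u : K => (P.comp Q).eval u) = fun u => P.eval (Q.eval u) := by
        funext u; rw [Polynomial.eval_comp]
      rw [this]
      exact ⟨T1.comp T2⟩

/-- a point with all smaller coordinates zero is fixed on the next prefix -/
lemma fix_top (hd : d ≠ 0) {v : Valuation K ℤᵐ⁰} {p f : ℕ} (g : GoodPlace D d v p f) {i : ℕ} (hi : 1 ≤ i)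
    (hiN : i + 1 < N + 2) {x : Fin (N + 2) → K} (h0 : ZP i x) : PR (i + 1) (F x) x := by
  set I : Fin (N + 2) := ⟨i + 1, hiN⟩ with hI
  have hI2 : 2 ≤ (I : ℕ) := by simp [hI]; omega
  by_cases h1 : x I = 0
  · have hz : ZP (i + 1) x := by
      intro j hj
      rcases Nat.lt_or_ge (j : ℕ) (i + 1) with h | h
      · exact h0 j (by omega)
      · have hjI : j = I := Fin.ext (by simp [hI]; omega)
        rw [hjI, h1]
    exact (h.map_zp hd (by omega) hz).PR hz
  · have hFI : F x I ≠ 0 := by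
      obtain ⟨P, hP, hPe⟩ := h.fib I hI2 x
      obtain ⟨T⟩ := Exc.tame' g hP
      have h2 := T.map_ne h1
      have h3 : F x I = P.eval (x I) := by rw [← hPe, Function.update_eq_self]
      have h4 : P.eval 0 = 0 := by
        rw [← hPe]
        have hz : ZP (i + 1) (Function.update x I 0) := by
          intro j hj
          by_cases hjI : j = I
          · rw [hjI, Function.update_self]
          · rw [Function.update_of_ne hjI]
            apply h0
            have : (j : ℕ) ≠ i + 1 := fun h => hjI (Fin.ext h)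
            omega
        exact h.map_zp hd (by omega) hz I le_rfl
      rw [h3]
      intro h5
      apply h2
      show P.eval (x I) = P.eval 0
      rw [h5, h4]
    refine ⟨F x I / x I, div_ne_zero hFI h1, fun j hj => ?_⟩
    rcases Nat.lt_or_ge (j : ℕ) (i + 1) with h' | h'
    · rw [h0 j (by omega), mul_zero]
      exact h.map_zp hd hi h0 j (by omega)
    · have hjI : j = I := Fin.ext (by simp [hI]; omega)
      rw [hjI]
      field_simp

end Skew

/-- periods of tame maps -/
lemma tame_period {v1 v2 : Valuation K ℤᵐ⁰} {p1 q1 p2 q2 : ℕ} (hv1 : IsPlace v1 p1 q1) (hv2 : IsPlace v2 p2 q2)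
    (hp1 : p1.Prime) (hp2 : p2.Prime) (hne : p1 ≠ p2) {ψ : K → K} (T1 : Tame v1 ψ) (T2 : Tame v2 ψ)
    {u : K} {n : ℕ} (hn : 0 < n) (hu : ψ^[n] u = u) :
    ∃ m, 0 < m ∧ m ≤ q1 ^ 6 * q2 ^ 6 ∧ ψ^[m] u = u := by
  classical
  set y : ℕ → K := fun t => ψ^[t] u with hy
  have per : ∀ t, y (t + n) = y t := by
    intro t
    simp only [hy]
    rw [Function.iterate_add_apply, hu]
  have hrec : ∀ t, y (t + 2) = ψ (y (t + 1)) - 0 * y t := by
    intro t
    simp only [hy]
    rw [zero_mul, sub_zero, Function.iterate_succ_apply']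
  obtain ⟨t1, E1, ht1, ht1', hall1⟩ := henon_local hv1 hp1 T1 (by simp) hn per hrec
  obtain ⟨t2, E2, ht2, ht2', hall2⟩ := henon_local hv2 hp2 T2 (by simp) hn per hrec
  have hex : ∃ m, 0 < m ∧ ∀ t, y (t + m) = y t := ⟨n, hn, per⟩
  obtain ⟨hm0, hmy⟩ := Nat.find_spec hex
  set m := Nat.find hex with hm
  have hdvd : ∀ M, (∀ t, y (t + M) = y t) → m ∣ M := by
    intro M hM
    by_contra hcon
    have h1 : 0 < M % m := Nat.pos_of_ne_zero fun h => hcon (Nat.dvd_of_mod_eq_zero h)
    have h2 : M % m < m := Nat.mod_lt _ hm0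
    apply Nat.find_min hex h2
    refine ⟨h1, fun t => ?_⟩
    have h3 : y (t + M % m) = y (t + M) := by
      apply per_mod hmy
      show (t + M % m) % m = (t + M) % m
      rw [Nat.add_mod, Nat.mod_mod, ← Nat.add_mod]
    rw [h3, hM]
  have h1 := dvd_of_two_primes hp1 hp2 hne (hdvd _ hall1) (hdvd _ hall2)
  refine ⟨m, hm0, ?_, ?_⟩
  · exact (Nat.le_of_dvd (Nat.mul_pos ht1 ht2) h1).trans (Nat.mul_le_mul ht1' ht2')
  · have := hmy 0
    simpa [hy] using this

end Pool.Agent.H504E
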