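import Pool.Agent.H504E.Period

set_option autoImplicit false
set_option linter.unusedSectionVars false
set_option linter.unusedVariables false

open Finset Pool.Agent.H504R2 Pool.Agent.H504D
open scoped WithZero

namespace Pool.Agent.H504E

variable {K : Type} [Field K] {N : ℕ}

lemma card_classes {α : Type} [DecidableEq α] (r : α → α → Prop) [DecidableRel r] (hrefl : ∀ x, r x x)
    (hsymm : ∀ x y, r x y → r y x) (T : Finset α) {a b : ℕ}
    (h1 : ∀ R ⊆ T, (∀ x ∈ R, ∀ y ∈ R, r x y → x = y) → R.card ≤ a)
    (h2 : ∀ x ∈ T, (T.filter (r x)).card ≤ b) : T.card ≤ a * b := by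
  -- a maximal set of pairwise unrelated elements
  obtain ⟨R, hRmem, hRmax⟩ := exists_max_image (T.powerset.filter fun R => ∀ x ∈ R, ∀ y ∈ R, r x y → x = y)
    Finset.card ⟨∅, by simp⟩
  rw [mem_filter, mem_powerset] at hRmem
  obtain ⟨hRT, hR⟩ := hRmem
  have hcov : T ⊆ R.biUnion fun x => T.filter (r x) := by
    intro y hy
    by_contra hcon
    rw [mem_biUnion] at hcon
    push Not at hcon
    have hno : ∀ x ∈ R, ¬ r x y := fun x hx hxy => hcon x hx (mem_filter.2 ⟨hy, hxy⟩)
    have hyR : y ∉ R := fun h => hno y h (hrefl y)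
    have hins : insert y R ∈ T.powerset.filter fun R => ∀ x ∈ R, ∀ y ∈ R, r x y → x = y := by
      rw [mem_filter, mem_powerset]
      refine ⟨insert_subset hy hRT, ?_⟩
      intro x hx z hz hxz
      rw [mem_insert] at hx hz
      rcases hx with rfl | hx <;> rcases hz with rfl | hz
      · rfl
      · exact absurd (hsymm _ _ hxz) (hno z hz)
      · exact absurd hxz (hno x hx)
      · exact hR x hx z hz hxz
    have := hRmax _ hins
    rw [card_insert_of_notMem hyR] at this
    omega
  calc T.card ≤ (R.biUnion fun x => T.filter (r x)).card := card_le_card hcov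
    _ ≤ R.card * b := card_biUnion_le_card_mul _ _ _ (fun x hx => h2 x (hRT hx))
    _ ≤ a * b := Nat.mul_le_mul_right _ (h1 R hRT hR)

/-- bound for the number of fixed points -/
def cnt (e : ℕ) : ℕ → ℕ
  | 0 => e + 2
  | i + 1 => cnt e i * e + 1

namespace Skew

variable {D d : ℕ} {F : (Fin (N + 2) → K) → Fin (N + 2) → K} (h : Skew D d F)

include h

theorem count (hd2 : 2 ≤ d) {M : ℕ} (hM : 0 < M) (i : ℕ) (hiN : i + 1 < N + 2) :
    ∀ T : Finset (Fin (N + 2) → K), (∀ x ∈ T, ¬ ZP (i + 1) x) →
      (∀ x ∈ T, ∀ y ∈ T, PR (i + 1) x y → x = y) → (∀ x ∈ T, PR (i + 1) (F^[M] x) x) →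
      T.card ≤ cnt (d ^ M) i := by
  classical
  have he : 2 ≤ d ^ M := by
    calc 2 ≤ d := hd2
      _ = d ^ 1 := (pow_one d).symm
      _ ≤ d ^ M := Nat.pow_le_pow_right (by omega) hM
  induction i with
  | zero =>
    intro T hT0 hTp hTf
    obtain ⟨G, hG, hGx⟩ := h.base
    have hG' := hG.iter M hM
    have hne : ∀ x ∈ T, two x ≠ 0 := fun x hx h => hT0 x hx (two_eq_zero_iff.1 h)
    have hinj : Set.InjOn (two : (Fin (N + 2) → K) → Fin 2 → K) T := by
      intro x hx y hy hxy
      apply hTp x hx y hy
      rw [zero_add, PR_one_iff (hne x hx) (hne y hy), hxy]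
      exact br_self _
    rw [← card_image_of_injOn hinj]
    apply hG'.count he
    · intro z hz
      obtain ⟨x, hx, rfl⟩ := mem_image.1 hz
      exact hne x hx
    · intro z hz w hw c hzw
      obtain ⟨x, hx, rfl⟩ := mem_image.1 hz
      obtain ⟨y, hy, rfl⟩ := mem_image.1 hw
      congr 1
      apply hTp x hx y hy
      rw [zero_add, PR_one_iff (hne x hx) (hne y hy), br_eq_zero_iff (hne x hx) (hne y hy)]
      refine ⟨c, ?_, hzw⟩
      rintro rfl
      apply hne x hx
      rw [hzw, zero_smul]
    · intro z hz
      obtain ⟨x, hx, rfl⟩ := mem_image.1 hz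
      obtain ⟨s, hs, hsx⟩ := hTf x hx
      refine ⟨s, ?_⟩
      rw [← h.iter_two G hGx]
      ext j
      fin_cases j
      · exact hsx 0 (by simp)
      · exact hsx 1 (by simp)
  | succ i ih =>
    intro T hT0 hTp hTf
    set I : Fin (N + 2) := ⟨i + 2, hiN⟩ with hI
    have hI2 : 2 ≤ (I : ℕ) := by simp [hI]
    have hsplit : (T.filter fun x => ZP (i + 1) x).card + (T.filter fun x => ¬ ZP (i + 1) x).card = T.card :=
      card_filter_add_card_filter_not _
    have hzero : (T.filter fun x => ZP (i + 1) x).card ≤ 1 := by
      rw [card_le_one]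
      intro x hx y hy
      rw [mem_filter] at hx hy
      apply hTp x hx.1 y hy.1
      have hxI : ∀ x ∈ T, ZP (i + 1) x → x I ≠ 0 := by
        intro x hx hz hxI
        apply hT0 x hx
        intro j hj
        by_cases hjI : j = I
        · rw [hjI, hxI]
        · apply hz
          have : (j : ℕ) ≠ i + 2 := fun h => hjI (Fin.ext h)
          omega
      have h1 := hxI x hx.1 hx.2
      have h2 := hxI y hy.1 hy.2
      refine ⟨x I / y I, div_ne_zero h1 h2, fun j hj => ?_⟩
      by_cases hjI : j = I
      · rw [hjI]; field_simp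
      · have : (j : ℕ) ≠ i + 2 := fun h => hjI (Fin.ext h)
        rw [hx.2 j (by omega), hy.2 j (by omega), mul_zero]
    have hmain : (T.filter fun x => ¬ ZP (i + 1) x).card ≤ cnt (d ^ M) i * d ^ M := by
      set T' := T.filter fun x => ¬ ZP (i + 1) x with hT'
      have hT'T : T' ⊆ T := filter_subset _ _
      apply card_classes (PR (i + 1)) (fun x => PR.refl _ x) (fun x y hxy => hxy.symm) T'
      · intro R hR hRp
        apply ih (by omega) R
        · intro x hx
          exact (mem_filter.1 (hR hx)).2
        · exact hRp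
        · intro x hx
          exact (hTf x (hT'T (hR hx))).mono (by omega)
      · intro r hr
        obtain ⟨j0, hj0, hrj0⟩ : ∃ j : Fin (N + 2), (j : ℕ) ≤ i + 1 ∧ r j ≠ 0 := by
          have := (mem_filter.1 hr).2
          unfold ZP at this
          push Not at this
          exact this
        have hj0I : j0 ≠ I := by
          rintro rfl
          simp [hI] at hj0
        obtain ⟨P, hPd, hP, -⟩ := h.iter_fib M hI2 r
        set l : K := F^[M] r j0 / r j0 with hl
        set Q : Polynomial K := P - Polynomial.C l * Polynomial.X with hQ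
        have hQd : Q.natDegree = d ^ M := by
          rw [hQ, Polynomial.natDegree_sub_eq_left_of_natDegree_lt, hPd]
          rw [hPd]
          refine lt_of_le_of_lt (Polynomial.natDegree_C_mul_le _ _) ?_
          rw [Polynomial.natDegree_X]
          omega
        have hQ0 : Q ≠ 0 := by
          rintro h0
          rw [h0, Polynomial.natDegree_zero] at hQd
          omega
        have hz : ∀ y ∈ T'.filter (PR (i + 1) r), PR (i + 2) (Function.update r I (r j0 / y j0 * y I)) y := by
          intro y hy
          obtain ⟨-, s, hs, hsy⟩ := mem_filter.1 hy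
          have h1 := hsy j0 hj0
          have hyj0 : y j0 ≠ 0 := by
            intro h0
            rw [h0, mul_zero] at h1
            exact hrj0 h1
          have hs' : r j0 / y j0 = s := by rw [h1]; field_simp
          refine ⟨s, hs, fun j hj => ?_⟩
          by_cases hjI : j = I
          · subst hjI; rw [Function.update_self, hs']
          · rw [Function.update_of_ne hjI]
            apply hsy
            have : (j : ℕ) ≠ i + 2 := fun h => hjI (Fin.ext h)
            omega
        have hinj : Set.InjOn (fun y : Fin (N + 2) → K => r j0 / y j0 * y I) (T'.filter (PR (i + 1) r)) := by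
          intro y hy y' hy' hyy
          have h1 := hz y hy
          have h2 := hz y' hy'
          simp only at hyy
          rw [hyy] at h1
          apply hTp y (hT'T (mem_filter.1 hy).1) y' (hT'T (mem_filter.1 hy').1)
          exact h1.symm.trans h2
        rw [← card_image_of_injOn hinj]
        calc _ ≤ Q.roots.toFinset.card := by
              apply card_le_card
              intro w hw
              obtain ⟨y, hy, rfl⟩ := mem_image.1 hw
              rw [Multiset.mem_toFinset, Polynomial.mem_roots hQ0, Polynomial.IsRoot.def, hQ]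
              simp only [Polynomial.eval_sub, Polynomial.eval_mul, Polynomial.eval_C, Polynomial.eval_X]
              have h1 := hz y hy
              have h2 := (h.iter_PR M (by omega) h1).trans
                ((hTf y (hT'T (mem_filter.1 hy).1)).trans h1.symm)
              obtain ⟨s, hs, hsz⟩ := h2
              have h3 := hsz j0 (by omega)
              rw [Function.update_of_ne hj0I] at h3
              have h4 : F^[M] (Function.update r I (r j0 / y j0 * y I)) j0 = F^[M] r j0 := by
                apply h.iter_pre M (i := i + 1) (by omega) _ j0 hj0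
                intro j hj
                apply Function.update_of_ne
                rintro rfl
                simp [hI] at hj
              rw [h4] at h3
              have hsl : s = l := by rw [hl, h3]; field_simp
              have h5 := hsz I le_rfl
              rw [hP, Function.update_self, hsl] at h5
              rw [h5, sub_self]
          _ ≤ Q.roots.card := Multiset.toFinset_card_le _
          _ ≤ Q.natDegree := Polynomial.card_roots' _
          _ = d ^ M := hQd
    show T.card ≤ cnt (d ^ M) i * d ^ M + 1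
    omega

end Skew

/-- the main theorem in abstract form -/
theorem skew_bound (D N d : ℕ) (hd : 2 ≤ d) :
    ∃ C : ℕ, ∀ (K : Type) [Field K] [NumberField K], Module.finrank ℚ K ≤ D →
      ∀ F : (Fin (N + 2) → K) → Fin (N + 2) → K, Skew D d F →
        ∀ S : Finset (Fin (N + 2) → K),
          (∀ x ∈ S, x ≠ 0) →
          (∀ x ∈ S, ∀ y ∈ S, ∀ c : K, x = c • y → x = y) →
          (∀ x ∈ S, ∃ m n : ℕ, m < n ∧ ∃ c : K, c ≠ 0 ∧ F^[n] x = c • F^[m] x) →
          S.card ≤ C := by
  classical
  obtain ⟨p1, -, hp1, hp1d, hp1r⟩ := exists_good_prime' d (by omega) 1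
  obtain ⟨p2, hp12, hp2, hp2d, hp2r⟩ := exists_good_prime' d (by omega) p1
  set N0 := B1 d (p1 ^ D) (p2 ^ D) * B2 (p1 ^ D) (p2 ^ D) ^ N with hN0
  refine ⟨cnt (d ^ N0.factorial) N, ?_⟩
  intro K _ _ hK F h S hS0 hSp hpre
  obtain ⟨v1, f1, hf1, hf1', hv1⟩ := exists_place K p1 hp1
  obtain ⟨v2, f2, hf2, hf2', hv2⟩ := exists_place K p2 hp2
  have g1 : GoodPlace D d v1 p1 f1 := ⟨hv1, hp1, hf1, by omega, hp1d, hp1r⟩
  have g2 : GoodPlace D d v2 p2 f2 := ⟨hv2, hp2, hf2, by omega, hp2d, hp2r⟩
  have hall : ∀ {x y : Fin (N + 2) → K}, PR (N + 1) x y → ∃ c : K, c ≠ 0 ∧ x = c • y := by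
    rintro x y ⟨s, hs, hxy⟩
    exact ⟨s, hs, funext fun j => hxy j (by have := j.2; omega)⟩
  apply h.count hd (Nat.factorial_pos N0) N (by omega) S
  · intro x hx hz
    apply hS0 x hx
    funext j
    exact hz j (by have := j.2; omega)
  · intro x hx y hy hxy
    obtain ⟨c, -, hc⟩ := hall hxy
    exact hSp x hx y hy c hc
  · intro x hx
    obtain ⟨a, b, hab, c, hc, hcx⟩ := hpre x hx
    obtain ⟨n, hn0, hnN, hnx⟩ := h.period (by omega) g1 g2 (by omega) N (by omega) x
      ⟨a, b - a, by omega, ⟨c, hc, fun j _ => by
        rw [show a + (b - a) = b by omega, hcx]; rfl⟩⟩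
    have hq1 : p1 ^ f1 ≤ p1 ^ D := Nat.pow_le_pow_right hp1.pos (by omega)
    have hq2 : p2 ^ f2 ≤ p2 ^ D := Nat.pow_le_pow_right hp2.pos (by omega)
    have hle : n ≤ N0 := by
      refine hnN.trans ?_
      rw [hN0]
      unfold B1 B2
      gcongr
    obtain ⟨s, hs⟩ := Nat.dvd_factorial hn0 hle
    rw [hs]
    have key : ∀ s, PR (N + 1) (F^[n * s] x) x := by
      intro s
      induction s with
      | zero => simpa using PR.refl _ _
      | succ s ih =>
        rw [show n * (s + 1) = n + n * s by ring, Function.iterate_add_apply]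
        exact (h.iter_PR n (by omega) ih).trans hnx
    exact key s

end Pool.Agent.H504E
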